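import Pool.Agent.Y46.Kc.Rel

set_option autoImplicit false

/-!
# Blocks of size `2 ^ a`
-/

namespace Pool.Agent.Y46.Kc

open Finset
open Pool.Agent.H119R2.Kp (GP PV)

theorem PV_emb {n : ℕ} {P : SimpleGraph (Fin n) → Prop}
    (hmono : ∀ G H : SimpleGraph (Fin n), G ≤ H → P G → P H) {V V' : Type} {G : SimpleGraph V}
    {H : SimpleGraph V'} (e : V ≃ V') (h : ∀ u v, G.Adj u v → H.Adj (e u) (e v))
    (hG : PV P V G) : PV P V' H := by
  obtain ⟨e0, he0⟩ := hG
  refine ⟨e.symm.trans e0, hmono _ _ ?_ he0⟩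
  intro a b hab
  rw [SimpleGraph.map_adj] at hab ⊢
  obtain ⟨u, v, huv, rfl, rfl⟩ := hab
  exact ⟨e u, e v, h u v huv, by simp, by simp⟩

/-- representatives of the differences for an arbitrary `k` -/
def tt (k : ℕ) (j : Fin (k / 2)) : ZMod k := ((j.val + 1 : ℕ) : ZMod k)

theorem half_tt (k : ℕ) [NeZero k] : Half (tt k) where
  ne j h := by
    unfold tt at h
    rw [ZMod.natCast_eq_zero_iff] at h
    have h1 := Nat.le_of_dvd (by omega) h
    have := j.2
    omega
  inj i j h := by
    have hi := i.2
    have hj := j.2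
    rcases h with h | h
    · unfold tt at h
      rw [ZMod.natCast_eq_natCast_iff', Nat.mod_eq_of_lt (by omega), Nat.mod_eq_of_lt (by omega)] at h
      exact Fin.ext (by omega)
    · unfold tt at h
      have h2 : (((i.val + 1) + (j.val + 1) : ℕ) : ZMod k) = 0 := by
        push_cast at h ⊢
        rw [h]
        ring
      rw [ZMod.natCast_eq_zero_iff] at h2
      obtain ⟨c, hc⟩ := h2
      have hc1 : c = 1 := by
        have h3 : 0 < c := by
          rcases Nat.eq_zero_or_pos c with h3 | h3
          · rw [h3] at hc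
            omega
          · exact h3
        have h4 : c < 2 := by
          by_contra h4
          have h5 : k * 2 ≤ k * c := Nat.mul_le_mul_left _ (by omega)
          omega
        omega
      rw [hc1] at hc
      exact Fin.ext (by omega)
  surj z hz := by
    have hv0 : z.val ≠ 0 := fun h => hz ((ZMod.val_eq_zero z).1 h)
    have hv := z.val_lt
    by_cases h : z.val ≤ k / 2
    · refine ⟨⟨z.val - 1, by omega⟩, Or.inl ?_⟩
      unfold tt
      simp only
      rw [Nat.sub_add_cancel (by omega), ZMod.natCast_zmod_val]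
    · refine ⟨⟨k - z.val - 1, by omega⟩, Or.inr ?_⟩
      unfold tt
      simp only
      rw [Nat.sub_add_cancel (by omega), Nat.cast_sub hv.le, ZMod.natCast_self,
        ZMod.natCast_zmod_val]
      ring

/-- the last set of differences for which the property fails -/
theorem exists_step {W : Type} [Fintype W] (Q : Set W → Prop) (h0 : ¬ Q ∅) (h1 : Q Set.univ) :
    ∃ (X : Set W) (d : W), ¬ Q X ∧ Q (insert d X) := by
  classical
  by_contra hcon
  push Not at hcon
  have h : ∀ s : Finset W, ¬ Q (s : Set W) := by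
    intro s
    induction s using Finset.induction_on with
    | empty => rwa [coe_empty]
    | insert d s _ ih =>
      rw [coe_insert]
      exact hcon _ d ih
  exact h univ (by rwa [coe_univ])

variable {r k : ℕ}

/-- adding a difference inside the blocks is not better than adding all edges between the blocks of
one difference -/
theorem step_two {a : ℕ} (A : SimpleGraph (Fin r)) (S : Set (Fin r)) (X : Set (Fin a → ZMod 2))
    (T : Set (ZMod k)) (t : ZMod k) (ht : t ∈ T) (ht0 : t ≠ 0) (d : Fin a → ZMod 2) (hd : d ≠ 0) :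
    ∃ e : VV r k (Fin a → ZMod 2) ≃ VV r k (Fin a → ZMod 2),
      ∀ u v, (GG A S (insert d X) ∅).Adj u v → (GG A S X T).Adj (e u) (e v) := by
  obtain ⟨l, hl⟩ : ∃ l, d l ≠ 0 := by
    by_contra h
    push Not at h
    exact hd (funext h)
  refine GG_emb A S (fun x => if x l = 0 then 0 else t) ?_
  intro x y _ hxy
  have h01 : ∀ z : ZMod 2, z = 0 ∨ z = 1 := by decide
  have hdl : d l = 1 := (h01 _).resolve_left hl
  rcases h01 (x l) with hx | hx <;> rcases h01 (y l) with hy | hy
  · left
    refine ⟨by simp [hx, hy], ?_⟩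
    refine hxy.resolve_left fun h => ?_
    have := congrFun h l
    rw [Pi.sub_apply, hx, hy, hdl, sub_self] at this
    exact zero_ne_one this
  · right
    refine ⟨by simp [hx, hy, ht0.symm], Or.inl (by simp [hx, hy, ht])⟩
  · right
    refine ⟨by simp [hx, hy, ht0], Or.inr (by simp [hx, hy, ht])⟩
  · left
    refine ⟨by simp [hx, hy], ?_⟩
    refine hxy.resolve_left fun h => ?_
    have := congrFun h l
    rw [Pi.sub_apply, hx, hy, hdl, sub_self] at this
    exact zero_ne_one this

open Classical in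
/-- **Blocks of size `2 ^ a`.** If the property fails without edges inside and between the blocks
and holds for `k` disjoint complete blocks, then it needs at least `C(k, 2) 4 ^ a` queries. -/
theorem two {n q : ℕ} {P : SimpleGraph (Fin n) → Prop} (hP : GP n q P) (a : ℕ)
    (hn : r + k * 2 ^ a = n) (A : SimpleGraph (Fin r)) (S : Set (Fin r))
    (h0 : ¬ PV P (VV r k (Fin a → ZMod 2)) (GG A S ∅ ∅))
    (h1 : PV P (VV r k (Fin a → ZMod 2)) (GG A S Set.univ ∅)) :
    k.choose 2 * (2 ^ a) ^ 2 ≤ q := by
  by_contra hq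
  push Not at hq
  have hk : 2 ≤ k := by
    by_contra hk
    rw [Nat.choose_eq_zero_of_lt (by omega), zero_mul] at hq
    omega
  have : NeZero k := ⟨by omega⟩
  obtain ⟨X, d, hX, hXd⟩ := exists_step
    (fun X => PV P (VV r k (Fin a → ZMod 2)) (GG A S X ∅)) h0 h1
  have hd : d ≠ 0 := by
    rintro rfl
    apply hX
    refine PV_emb hP.mono (Equiv.refl _) ?_ hXd
    rintro (u | u) (v | v) h
    · exact h
    · exact h
    · exact h
    · rcases h with ⟨h2, h3, (h4 | h4) | (h4 | h4)⟩ | h2
      · exact absurd (sub_eq_zero.1 h4).symm h3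
      · exact Or.inl ⟨h2, h3, Or.inl h4⟩
      · exact absurd (sub_eq_zero.1 h4) h3
      · exact Or.inl ⟨h2, h3, Or.inr h4⟩
      · exact Or.inr h2
  have hall : ∀ I : Finset (Fin (k / 2)), I.Nonempty →
      PV P (VV r k (Fin a → ZMod 2)) (GG A S X {z | ∃ j ∈ I, z = tt k j}) := by
    rintro I ⟨j, hj⟩
    obtain ⟨e, he⟩ := step_two (r := r) A S X {z | ∃ j ∈ I, z = tt k j} (tt k j) ⟨j, hj, rfl⟩
      ((half_tt k).ne j) d hd
    exact PV_emb hP.mono e he hXd
  have key := relGG hP 2 a hn (tt k) (half_tt k) hq A S X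
  have hempty : ¬ PV P (VV r k (Fin a → ZMod 2))
      (GG A S X {z | ∃ j ∈ (∅ : Finset (Fin (k / 2))), z = tt k j}) := by
    have : {z : ZMod k | ∃ j ∈ (∅ : Finset (Fin (k / 2))), z = tt k j} = ∅ := by
      ext z
      simp
    rw [this]
    exact hX
  have hne : (univ : Finset (Fin (k / 2))).Nonempty := ⟨⟨0, by omega⟩, mem_univ _⟩
  have hsum : ∑ I : Finset (Fin (k / 2)), (-1 : ℤ) ^ I.card = 0 := by
    have := Finset.sum_powerset_neg_one_pow_card (x := (univ : Finset (Fin (k / 2))))
    rw [if_neg hne.ne_empty, Finset.powerset_univ] at this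
    exact this
  have h2 : ∑ I : Finset (Fin (k / 2)), (-1 : ℤ) ^ I.card *
      (if PV P (VV r k (Fin a → ZMod 2)) (GG A S X {z | ∃ j ∈ I, z = tt k j}) then 1 else 0) =
      ∑ I : Finset (Fin (k / 2)), ((-1 : ℤ) ^ I.card - if I = ∅ then 1 else 0) := by
    refine Finset.sum_congr rfl fun I _ => ?_
    rcases I.eq_empty_or_nonempty with h | h
    · subst h
      rw [if_neg hempty, if_pos rfl]
      simp
    · rw [if_pos (hall I h), if_neg h.ne_empty]
      ring
  rw [h2, Finset.sum_sub_distrib, hsum, Finset.sum_ite_eq' univ (∅ : Finset (Fin (k / 2)))] at key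
  simp at key

end Pool.Agent.Y46.Kc
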