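import Pool.Agent.Y46.Kc.Orb
import Pool.Agent.Y46.Kc.Two

set_option autoImplicit false

/-!
# Copies of a bipartite graph
-/

namespace Pool.Agent.Y46.Kc

open Finset
open Pool.Agent.H119R2.Kp (GP PV)

/-- disjoint copies of `B` indexed by `K` -/
def cop (K : Type) {F : Type} (B : SimpleGraph F) : SimpleGraph (K × F) where
  Adj u v := u.1 = v.1 ∧ B.Adj u.2 v.2
  symm := ⟨fun _ _ h => ⟨h.1.symm, h.2.symm⟩⟩
  loopless := ⟨fun u h => B.loopless.irrefl u.2 h.2⟩

section

variable {k : ℕ} {F : Type} [Field F]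

/-- translations of the blocks -/
def Tr (f : ZMod k → F) : Equiv.Perm (ZMod k × F) where
  toFun u := (u.1, u.2 + f u.1)
  invFun u := (u.1, u.2 - f u.1)
  left_inv u := by simp
  right_inv u := by simp

theorem Tr_apply (f : ZMod k → F) (u : ZMod k × F) : Tr f u = (u.1, u.2 + f u.1) := rfl

theorem Tr_add (f g : ZMod k → F) : Tr (f + g) = Tr f * Tr g := by
  ext u
  · rfl
  · change u.2 + (f + g) u.1 = u.2 + g u.1 + f u.1
    rw [Pi.add_apply]
    ring

theorem Tr_zero : Tr (0 : ZMod k → F) = 1 := by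
  ext u
  · rfl
  · change u.2 + 0 = u.2
    rw [add_zero]

theorem Tr_nsmul (n : ℕ) (f : ZMod k → F) : Tr (n • f) = Tr f ^ n := by
  induction n with
  | zero => rw [zero_smul, Tr_zero, pow_zero]
  | succ n ih => rw [succ_nsmul, Tr_add, ih, pow_succ]

/-- rotation of the blocks and multiplication by `g` -/
def Ro (k : ℕ) (g : Fˣ) : Equiv.Perm (ZMod k × F) where
  toFun u := (u.1 + 1, g * u.2)
  invFun u := (u.1 - 1, (g⁻¹ : Fˣ) * u.2)
  left_inv u := by simp
  right_inv u := by simp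

theorem Ro_apply (g : Fˣ) (u : ZMod k × F) : Ro k g u = (u.1 + 1, g * u.2) := rfl

theorem Ro_pow (g : Fˣ) (n : ℕ) (u : ZMod k × F) :
    (Ro k g ^ n) u = (u.1 + n, (g : F) ^ n * u.2) := by
  induction n with
  | zero => simp
  | succ n ih =>
    rw [pow_succ', Equiv.Perm.mul_apply, ih, Ro_apply]
    refine Prod.ext ?_ ?_
    · push_cast
      ring
    · ring

theorem conj_Tr (g : Fˣ) (f : ZMod k → F) :
    (Ro k g)⁻¹ * Tr f * Ro k g = Tr (fun i => (g⁻¹ : Fˣ) * f (i + 1)) := by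
  rw [mul_assoc, inv_mul_eq_iff_eq_mul]
  ext u
  · rfl
  · change (g : F) * u.2 + f (u.1 + 1) = g * (u.2 + (g⁻¹ : Fˣ) * f (u.1 + 1))
    rw [mul_add, ← mul_assoc, Units.mul_inv, one_mul]

/-- the generators -/
def gen (k : ℕ) (F : Type) [Field F] (i : ZMod k × F) : Equiv.Perm (ZMod k × F) :=
  Tr (Pi.single i.1 i.2)

theorem Tr_mem [NeZero k] (K : Subgroup (Equiv.Perm (ZMod k × F))) (hK : ∀ i, gen k F i ∈ K)
    (f : ZMod k → F) : Tr f ∈ K := by
  have h : ∀ s : Finset (ZMod k), Tr (∑ i ∈ s, (Pi.single i (f i) : ZMod k → F)) ∈ K := by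
    intro s
    induction s using Finset.induction_on with
    | empty =>
      rw [Finset.sum_empty, Tr_zero]
      exact K.one_mem
    | insert i s hi ih =>
      rw [Finset.sum_insert hi, Tr_add]
      exact K.mul_mem (hK (i, f i)) ih
  have hf : f = ∑ i, (Pi.single i (f i) : ZMod k → F) := (Finset.univ_sum_single f).symm
  rw [hf]
  exact h _

/-- move a pair inside a block -/
theorem move_in [NeZero k] (g : Fˣ) (K : Subgroup (Equiv.Perm (ZMod k × F))) (hc : Ro k g ∈ K)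
    (hT : ∀ f : ZMod k → F, Tr f ∈ K) (i l : ZMod k) (x y z z' : F) (n : ℕ)
    (hn : i + (n : ZMod k) = l) (h : z' - z = (g : F) ^ n * (y - x)) :
    ∃ σ ∈ K, σ (i, x) = (l, z) ∧ σ (i, y) = (l, z') := by
  refine ⟨Tr (fun _ => z - (g : F) ^ n * x) * Ro k g ^ n, K.mul_mem (hT _) (K.pow_mem hc n), ?_, ?_⟩
  · rw [Equiv.Perm.mul_apply, Ro_pow, Tr_apply]
    refine Prod.ext hn ?_
    simp
  · rw [Equiv.Perm.mul_apply, Ro_pow, Tr_apply]
    refine Prod.ext hn ?_
    have h2 : z' = z + (g : F) ^ n * (y - x) := by rw [← h]; ring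
    change (g : F) ^ n * y + (z - (g : F) ^ n * x) = z'
    rw [h2]
    ring

/-- move a pair of vertices of different blocks -/
theorem move_out [NeZero k] (g : Fˣ) (K : Subgroup (Equiv.Perm (ZMod k × F))) (hc : Ro k g ∈ K)
    (hT : ∀ f : ZMod k → F, Tr f ∈ K) (i j l l' : ZMod k) (x y z z' : F) (hij : i ≠ j)
    (h : l' - l = j - i) :
    ∃ σ ∈ K, σ (i, x) = (l, z) ∧ σ (j, y) = (l', z') := by
  classical
  obtain ⟨n, hn⟩ : ∃ n : ℕ, (n : ZMod k) = l - i := ⟨(l - i).val, ZMod.natCast_zmod_val _⟩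
  have hl : i + n = l := by rw [hn]; ring
  have hl' : j + n = l' := by
    have : j = l' - l + i := by rw [h]; ring
    rw [hn, this]
    ring
  have hne : l' ≠ l := by
    rw [← hl, ← hl']
    exact fun h' => hij (add_right_cancel h').symm
  refine ⟨Tr (fun b => if b = l then z - (g : F) ^ n * x else z' - (g : F) ^ n * y) * Ro k g ^ n,
    K.mul_mem (hT _) (K.pow_mem hc n), ?_, ?_⟩
  · rw [Equiv.Perm.mul_apply, Ro_pow, Tr_apply]
    refine Prod.ext hl ?_
    simp [hl]
  · rw [Equiv.Perm.mul_apply, Ro_pow, Tr_apply]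
    refine Prod.ext hl' ?_
    simp [hl', hne]

variable [Fintype F] [DecidableEq F]

/-- **Main theorem.** -/
theorem copies {n q : ℕ} {P : SimpleGraph (Fin n) → Prop} (hP : GP n q P) [NeZero k] (p : ℕ)
    [Fact p.Prime] [CharP F p] (hn : k * Fintype.card F = n) (g : Fˣ) (B : SimpleGraph F)
    (χ : F → Bool) (hχ : ∀ x y, B.Adj x y → χ x ≠ χ y)
    (hB : ∀ u : F, u ≠ 0 → ∃ e : F ≃ F, ∀ x y, B.Adj x y →
      ∃ t : ℕ, e y - e x = (g : F) ^ (k * t) * u ∨ e x - e y = (g : F) ^ (k * t) * u)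
    (h0 : ¬ PV P (ZMod k × F) ⊥) (h1 : PV P (ZMod k × F) (cop (ZMod k) B)) :
    n.choose 2 ≤ q := by
  classical
  have hV : Fintype.card (ZMod k × F) = n := by
    rw [Fintype.card_prod, ZMod.card, hn]
  have hF : 2 ≤ Fintype.card F := Fintype.one_lt_card
  have hn2 : 2 ≤ n := by
    rw [← hn]
    have : 1 ≤ k := Nat.one_le_iff_ne_zero.2 (NeZero.ne k)
    nlinarith
  refine of_orbits hP hV p (gen k F) (Ro k g) ?_ ?_ ?_ hn2 h0 ?_
  · intro i j
    unfold gen
    rw [← Tr_add, ← Tr_add, add_comm]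
  · intro i
    unfold gen
    rw [← Tr_nsmul]
    have : p • (Pi.single i.1 i.2 : ZMod k → F) = 0 := by
      ext x
      simp
    rw [this, Tr_zero]
  · intro i
    unfold gen
    rw [conj_Tr]
    apply Subgroup.subset_closure
    refine ⟨(i.1 - 1, (g⁻¹ : Fˣ) * i.2), ?_⟩
    change Tr (Pi.single (i.1 - 1) (((g⁻¹ : Fˣ) : F) * i.2)) = _
    congr 1
    ext x
    by_cases hx : x = i.1 - 1
    · subst hx
      simp
    · have hx' : x + 1 ≠ i.1 := fun h => hx (by rw [← h]; ring)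
      simp [Pi.single_apply, hx, hx']
  · rintro ⟨i, x⟩ ⟨j, y⟩ hne
    set K := Subgroup.closure (insert (Ro k g) (Set.range (gen k F))) with hK
    have hc : Ro k g ∈ K := Subgroup.subset_closure (Set.mem_insert _ _)
    have hT : ∀ f : ZMod k → F, Tr f ∈ K :=
      Tr_mem K (fun i => Subgroup.subset_closure (Set.mem_insert_of_mem _ ⟨i, rfl⟩))
    by_cases hij : i = j
    · subst hij
      have hxy : y - x ≠ 0 := by
        intro h
        apply hne
        rw [sub_eq_zero.1 h]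
      choose e he using hB
      -- the unit of the block `l`
      set u : ZMod k → F := fun l => (g : F) ^ (l - i).val * (y - x) with hu
      have hu0 : ∀ l, u l ≠ 0 := fun l => mul_ne_zero (pow_ne_zero _ g.ne_zero) hxy
      refine PV_emb hP.mono
        (Equiv.prodShear (Equiv.refl (ZMod k)) (fun l => e (u l) (hu0 l))) ?_ h1
      rintro ⟨l, z⟩ ⟨l', z'⟩ ⟨hl, hz⟩
      simp only at hl hz
      subst hl
      obtain ⟨t, ht | ht⟩ := he (u l) (hu0 l) z z' hz
      · obtain ⟨σ, hσ, h2, h3⟩ := move_in g K hc hT i l x y (e (u l) (hu0 l) z)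
          (e (u l) (hu0 l) z') ((l - i).val + k * t) (by simp) (by rw [ht, hu]; ring)
        exact ⟨σ, hσ, Or.inl ⟨h2, h3⟩⟩
      · obtain ⟨σ, hσ, h2, h3⟩ := move_in g K hc hT i l x y (e (u l) (hu0 l) z')
          (e (u l) (hu0 l) z) ((l - i).val + k * t) (by simp) (by rw [ht, hu]; ring)
        exact ⟨σ, hσ, Or.inr ⟨h2, h3⟩⟩
    · have hs : j - i ≠ 0 := sub_ne_zero.2 (Ne.symm hij)
      set sh : F → ZMod k := fun z => if χ z = true then j - i else 0 with hsh
      refine PV_emb hP.mono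
        { toFun := fun u => (u.1 + sh u.2, u.2)
          invFun := fun u => (u.1 - sh u.2, u.2)
          left_inv := fun u => by simp
          right_inv := fun u => by simp } ?_ h1
      rintro ⟨l, z⟩ ⟨l', z'⟩ ⟨hl, hz⟩
      simp only at hl hz
      subst hl
      have h2 := hχ z z' hz
      rcases hzz : χ z with _ | _ <;> rcases hzz' : χ z' with _ | _
      · exact absurd (hzz.trans hzz'.symm) h2
      · obtain ⟨σ, hσ, h3, h4⟩ := move_out g K hc hT i j (l + sh z) (l + sh z') x y z z' hij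
          (by simp [hsh, hzz, hzz'])
        exact ⟨σ, hσ, Or.inl ⟨h3, h4⟩⟩
      · obtain ⟨σ, hσ, h3, h4⟩ := move_out g K hc hT i j (l + sh z') (l + sh z) x y z' z hij
          (by simp [hsh, hzz, hzz'])
        exact ⟨σ, hσ, Or.inr ⟨h3, h4⟩⟩
      · exact absurd (hzz.trans hzz'.symm) h2

end

end Pool.Agent.Y46.Kc
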