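import Pool.Agent.Y46.Kc.Cop
import Pool.Agent.H119R2.Kp.D4
import Pool.Agent.H119R2.Kp.PVE
import Mathlib.FieldTheory.Finite.GaloisField

set_option autoImplicit false

/-!
# Copies of a bipartite graph: the two cases
-/

namespace Pool.Agent.Y46.Kc

open Finset
open Pool.Agent.H119R2.Kp (GP PV dual)

theorem PV_bot {n : ℕ} {P : SimpleGraph (Fin n) → Prop} {V V' : Type} (e : V ≃ V')
    (h : PV P V ⊥) : PV P V' ⊥ := by
  obtain ⟨e0, he0⟩ := h
  refine ⟨e.symm.trans e0, ?_⟩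
  have h1 : (⊥ : SimpleGraph V).map e0.toEmbedding = ⊥ := by
    ext a b
    rw [SimpleGraph.map_adj]
    constructor
    · rintro ⟨u, v, h, _⟩
      exact h
    · exact fun h => h.elim
  have h2 : (⊥ : SimpleGraph V').map (e.symm.trans e0).toEmbedding = ⊥ := by
    ext a b
    rw [SimpleGraph.map_adj]
    constructor
    · rintro ⟨u, v, h, _⟩
      exact h
    · exact fun h => h.elim
  rw [h1] at he0
  rwa [h2]

/-- the property holds for the disjoint copies of a graph on another field -/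
theorem PV_cop {n : ℕ} {P : SimpleGraph (Fin n) → Prop}
    (hmono : ∀ G H : SimpleGraph (Fin n), G ≤ H → P G → P H) {K K' F F' : Type} (eK : K ≃ K')
    (eF : F ≃ F') (B : SimpleGraph F) (B' : SimpleGraph F')
    (h : ∀ x y, B.Adj x y → B'.Adj (eF x) (eF y)) (h1 : PV P (K × F) (cop K B)) :
    PV P (K' × F') (cop K' B') := by
  refine PV_emb hmono (Equiv.prodCongr eK eF) ?_ h1
  rintro ⟨l, x⟩ ⟨l', y⟩ ⟨h2, h3⟩
  exact ⟨congrArg eK h2, h x y h3⟩

/-- the case of paths -/
theorem path_case {n q k p : ℕ} {P : SimpleGraph (Fin n) → Prop} (hP : GP n q P) (hk : k ≠ 0)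
    (hp : p.Prime) (hn : n = k * p) (h0 : ¬ PV P (Fin k × Fin p) ⊥)
    (h1 : PV P (Fin k × Fin p) (cop (Fin k) (SimpleGraph.pathGraph p))) : n.choose 2 ≤ q := by
  classical
  have : Fact p.Prime := ⟨hp⟩
  have : NeZero k := ⟨hk⟩
  have ek : Fin k ≃ ZMod k := Fintype.equivOfCardEq (by rw [Fintype.card_fin, ZMod.card])
  obtain ⟨ep, hep⟩ : ∃ e : Fin p ≃ ZMod p, ∀ x, (e x).val = x.val := by
    obtain ⟨m, rfl⟩ : ∃ m, p = m + 1 := ⟨p - 1, by have := hp.pos; omega⟩
    exact ⟨Equiv.refl _, fun x => rfl⟩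
  let B : SimpleGraph (ZMod p) :=
    { Adj := fun x y => x.val + 1 = y.val ∨ y.val + 1 = x.val
      symm := ⟨fun x y h => h.symm⟩
      loopless := ⟨fun x h => by omega⟩ }
  have hB1 : ∀ x y, (SimpleGraph.pathGraph p).Adj x y → B.Adj (ep x) (ep y) := by
    intro x y h
    rw [SimpleGraph.pathGraph_adj] at h
    change (ep x).val + 1 = (ep y).val ∨ (ep y).val + 1 = (ep x).val
    rw [hep, hep]
    exact h
  have hstep : ∀ x y : ZMod p, x.val + 1 = y.val → y = x + 1 := by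
    intro x y h
    rw [← ZMod.natCast_zmod_val y, ← h]
    push_cast
    rw [ZMod.natCast_zmod_val]
  refine copies (k := k) (F := ZMod p) hP p (by rw [ZMod.card, hn]) 1 B
    (fun x => decide (x.val % 2 = 0)) ?_ ?_ ?_ (PV_cop hP.mono ek ep _ B hB1 h1)
  · rintro x y (h | h)
    · simp only [ne_eq, decide_eq_decide]
      omega
    · simp only [ne_eq, decide_eq_decide]
      omega
  · intro u hu
    refine ⟨Equiv.mulLeft₀ u hu, ?_⟩
    rintro x y (h | h)
    · refine ⟨0, Or.inl ?_⟩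
      rw [hstep x y h]
      simp only [Equiv.mulLeft₀_apply]
      simp
      ring
    · refine ⟨0, Or.inr ?_⟩
      rw [hstep y x h]
      simp only [Equiv.mulLeft₀_apply]
      simp
      ring
  · exact fun h => h0 (PV_bot (Equiv.prodCongr ek ep).symm h)

/-- the case `gcd(k, Q - 1) = 1` -/
theorem coprime_case {n q k Q : ℕ} {P : SimpleGraph (Fin n) → Prop} (hP : GP n q P) (hk : k ≠ 0)
    (hQ : IsPrimePow Q) (hn : n = k * Q) (B : SimpleGraph (Fin Q)) (hB : B.Colorable 2)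
    (hc : Nat.Coprime k (Q - 1)) (h0 : ¬ PV P (Fin k × Fin Q) ⊥)
    (h1 : PV P (Fin k × Fin Q) (cop (Fin k) B)) : n.choose 2 ≤ q := by
  classical
  obtain ⟨p, a, hp, ha, rfl⟩ := (isPrimePow_nat_iff Q).1 hQ
  have : Fact p.Prime := ⟨hp⟩
  have : NeZero k := ⟨hk⟩
  have : Fintype (GaloisField p a) := Fintype.ofFinite _
  have hcard : Fintype.card (GaloisField p a) = p ^ a := by
    rw [← Nat.card_eq_fintype_card]
    exact GaloisField.card p a ha.ne'
  have ek : Fin k ≃ ZMod k := Fintype.equivOfCardEq (by rw [Fintype.card_fin, ZMod.card])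
  have ep : Fin (p ^ a) ≃ GaloisField p a :=
    Fintype.equivOfCardEq (by rw [Fintype.card_fin, hcard])
  obtain ⟨C⟩ := hB
  obtain ⟨g, hg⟩ := IsCyclic.exists_monoid_generator (α := (GaloisField p a)ˣ)
  have hord : orderOf g = p ^ a - 1 := by
    rw [orderOf_eq_card_of_forall_mem_powers hg, Nat.card_units, Nat.card_eq_fintype_card, hcard]
  obtain ⟨m, hm⟩ := exists_pow_eq_self_of_coprime (x := g) (n := k) (by rw [hord]; exact hc)
  refine copies (k := k) (F := GaloisField p a) hP p (by rw [hcard, hn]) g (B.map ep.toEmbedding)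
    (fun x => decide (C (ep.symm x) = 0)) ?_ ?_ ?_ (PV_cop hP.mono ek ep _ _ ?_ h1)
  · intro x y h
    rw [SimpleGraph.map_adj] at h
    obtain ⟨u, v, huv, rfl, rfl⟩ := h
    have h2 := C.valid huv
    simp only [Equiv.coe_toEmbedding, Equiv.symm_apply_apply, ne_eq, decide_eq_decide]
    intro h3
    apply h2
    by_cases h4 : C u = 0
    · rw [h4, h3.1 h4]
    · have h5 : C v ≠ 0 := fun h => h4 (h3.2 h)
      have h6 : ∀ a b : Fin 2, a ≠ 0 → b ≠ 0 → a = b := by decide
      exact h6 _ _ h4 h5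
  · intro u hu
    refine ⟨Equiv.refl _, ?_⟩
    intro x y h
    have hxy : y - x ≠ 0 := sub_ne_zero.2 h.ne'
    have hw : (y - x) / u ≠ 0 := div_ne_zero hxy hu
    obtain ⟨s, hs⟩ := hg (Units.mk0 _ hw)
    refine ⟨m * s, Or.inl ?_⟩
    have h3 : (g : GaloisField p a) ^ (k * (m * s)) = (y - x) / u := by
      have h4 : g ^ (k * (m * s)) = Units.mk0 _ hw := by
        rw [← mul_assoc, pow_mul, pow_mul, hm]
        exact hs
      have := congrArg (fun z : (GaloisField p a)ˣ => (z : GaloisField p a)) h4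
      simpa using this
    rw [h3, div_mul_cancel₀ _ hu]
    rfl
  · exact fun h => h0 (PV_bot (Equiv.prodCongr ek ep).symm h)
  · intro x y h
    rw [SimpleGraph.map_adj]
    exact ⟨x, y, h, rfl, rfl⟩

/-- both cases -/
theorem cases {n q k Q : ℕ} {P : SimpleGraph (Fin n) → Prop} (hP : GP n q P) (hk : k ≠ 0)
    (hQ : IsPrimePow Q) (hn : n = k * Q) (B : SimpleGraph (Fin Q))
    (hB : (Q.Prime ∧ B = SimpleGraph.pathGraph Q) ∨ (B.Colorable 2 ∧ Nat.Coprime k (Q - 1)))
    (h0 : ¬ PV P (Fin k × Fin Q) ⊥) (h1 : PV P (Fin k × Fin Q) (cop (Fin k) B)) :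
    n.choose 2 ≤ q := by
  rcases hB with ⟨hp, rfl⟩ | ⟨hB, hc⟩
  · exact path_case hP hk hp hn h0 h1
  · exact coprime_case hP hk hQ hn B hB hc h0 h1

end Pool.Agent.Y46.Kc
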