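import Pool.Agent.Y46.Kc.Top
import Pool.Agent.Y46.Kc.CopFin

set_option autoImplicit false

/-!
# Copies of a bipartite graph: groups with an `l`-group on the top
-/

namespace Pool.Agent.Y46.Kc

open Finset
open Pool.Agent.H119R2.Kp (GP PV)

section

variable {k : ℕ} {F : Type} [Field F]

/-- multiplication by `g` in all blocks -/
def Mu (k : ℕ) (g : Fˣ) : Equiv.Perm (ZMod k × F) where
  toFun u := (u.1, g * u.2)
  invFun u := (u.1, (g⁻¹ : Fˣ) * u.2)
  left_inv u := by simp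
  right_inv u := by simp

theorem Mu_apply (g : Fˣ) (u : ZMod k × F) : Mu k g u = (u.1, g * u.2) := rfl

theorem Mu_pow (g : Fˣ) (n : ℕ) (u : ZMod k × F) :
    (Mu k g ^ n) u = (u.1, (g : F) ^ n * u.2) := by
  induction n with
  | zero => simp
  | succ n ih =>
    rw [pow_succ', Equiv.Perm.mul_apply, ih, Mu_apply]
    refine Prod.ext rfl ?_
    change (g : F) * ((g : F) ^ n * u.2) = (g : F) ^ (n + 1) * u.2
    ring

theorem Mu_inv (g : Fˣ) : (Mu k g)⁻¹ = Mu k g⁻¹ := by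
  ext u
  · rfl
  · rfl

theorem Mu_Tr (g : Fˣ) (f : ZMod k → F) : Mu k g * Tr f * (Mu k g)⁻¹ = Tr (fun i => g * f i) := by
  rw [mul_inv_eq_iff_eq_mul]
  ext u
  · rfl
  · change (g : F) * (u.2 + f u.1) = g * u.2 + g * f u.1
    ring

theorem Mu_Ro (g g' : Fˣ) : Mu k g' * Ro k g * (Mu k g')⁻¹ = Ro k g := by
  rw [mul_inv_eq_iff_eq_mul]
  ext u
  · rfl
  · change (g' : F) * (g * u.2) = g * (g' * u.2)
    ring

/-- the group generated by the translations and `Ro k g` -/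
def GK (k : ℕ) {F : Type} [Field F] (g : Fˣ) : Subgroup (Equiv.Perm (ZMod k × F)) :=
  Subgroup.closure (insert (Ro k g) (Set.range (gen k F)))

theorem Mu_conj [NeZero k] (g g' : Fˣ) (σ : Equiv.Perm (ZMod k × F)) (hσ : σ ∈ GK k g) :
    Mu k g' * σ * (Mu k g')⁻¹ ∈ GK k g := by
  have hT : ∀ f : ZMod k → F, Tr f ∈ GK k g :=
    Tr_mem _ (fun i => Subgroup.subset_closure (Set.mem_insert_of_mem _ ⟨i, rfl⟩))
  have h : GK k g ≤ (GK k g).comap (MulAut.conj (Mu k g')).toMonoidHom := by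
    conv_lhs => rw [GK]
    rw [Subgroup.closure_le]
    rintro τ (rfl | ⟨i, rfl⟩)
    · change Mu k g' * Ro k g * (Mu k g')⁻¹ ∈ GK k g
      rw [Mu_Ro]
      exact Subgroup.subset_closure (Set.mem_insert _ _)
    · change Mu k g' * Tr (Pi.single i.1 i.2) * (Mu k g')⁻¹ ∈ GK k g
      rw [Mu_Tr]
      exact hT _
  exact h hσ

theorem Mu_conj_iff [NeZero k] (g g' : Fˣ) (σ : Equiv.Perm (ZMod k × F)) :
    σ ∈ GK k g ↔ Mu k g' * σ * (Mu k g')⁻¹ ∈ GK k g := by
  constructor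
  · exact Mu_conj g g' σ
  · intro h
    have h2 := Mu_conj g g'⁻¹ _ h
    rw [← Mu_inv, inv_inv] at h2
    have h3 : (Mu k g')⁻¹ * (Mu k g' * σ * (Mu k g')⁻¹) * Mu k g' = σ := by group
    rwa [h3] at h2

variable [Fintype F] [DecidableEq F]

/-- **Main theorem, second form.** -/
theorem copies_top {n q : ℕ} {P : SimpleGraph (Fin n) → Prop} (hP : GP n q P) [NeZero k] (p : ℕ)
    [Fact p.Prime] [CharP F p] (hn : k * Fintype.card F = n) (g : Fˣ)
    (hg : ∀ w : F, w ≠ 0 → ∃ s : ℕ, (g : F) ^ s = w) (l N : ℕ) [Fact l.Prime]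
    (hN : ∃ t : ℕ, (g : F) ^ (l ^ N) = (g : F) ^ (k * t) ∨ (g : F) ^ (l ^ N) = -(g : F) ^ (k * t))
    (B : SimpleGraph F) (χ : F → Bool) (hχ : ∀ x y, B.Adj x y → χ x ≠ χ y)
    (h0 : ¬ PV P (ZMod k × F) ⊥) (h1 : PV P (ZMod k × F) (cop (ZMod k) B)) :
    n.choose 2 ≤ q := by
  classical
  have hV : Fintype.card (ZMod k × F) = n := by
    rw [Fintype.card_prod, ZMod.card, hn]
  have hF : 2 ≤ Fintype.card F := Fintype.one_lt_card
  have hn2 : 2 ≤ n := by
    rw [← hn]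
    have : 1 ≤ k := Nat.one_le_iff_ne_zero.2 (NeZero.ne k)
    nlinarith
  have hcK : Ro k g ∈ GK k g := Subgroup.subset_closure (Set.mem_insert _ _)
  have hTK : ∀ f : ZMod k → F, Tr f ∈ GK k g :=
    Tr_mem _ (fun i => Subgroup.subset_closure (Set.mem_insert_of_mem _ ⟨i, rfl⟩))
  refine of_orbits_top hP hV p (gen k F) (Ro k g) (Mu k g) ?_ ?_ ?_ (Mu_conj_iff g g) l N ?_ hn2
    h0 ?_
  · intro i j
    unfold gen
    rw [← Tr_add, ← Tr_add, add_comm]
  · intro i
    unfold gen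
    rw [← Tr_nsmul]
    have : p • (Pi.single i.1 i.2 : ZMod k → F) = 0 := by
      ext x
      simp
    rw [this, Tr_zero]
  · intro i
    unfold gen
    rw [conj_Tr]
    apply Subgroup.subset_closure
    refine ⟨(i.1 - 1, (g⁻¹ : Fˣ) * i.2), ?_⟩
    change Tr (Pi.single (i.1 - 1) (((g⁻¹ : Fˣ) : F) * i.2)) = _
    congr 1
    ext x
    by_cases hx : x = i.1 - 1
    · subst hx
      simp
    · have hx' : x + 1 ≠ i.1 := fun h => hx (by rw [← h]; ring)
      simp [hx, hx']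
  · rintro ⟨i, x⟩ ⟨j, y⟩ _
    obtain ⟨t, ht⟩ := hN
    by_cases hij : i = j
    · subst hij
      rw [Mu_pow, Mu_pow]
      rcases ht with ht | ht
      · obtain ⟨σ, hσ, h2, h3⟩ := move_in g (GK k g) hcK hTK i i x y ((g : F) ^ (l ^ N) * x)
          ((g : F) ^ (l ^ N) * y) (k * t) (by simp) (by rw [ht]; ring)
        exact ⟨σ, hσ, Or.inl ⟨h2, h3⟩⟩
      · obtain ⟨σ, hσ, h2, h3⟩ := move_in g (GK k g) hcK hTK i i x y ((g : F) ^ (l ^ N) * y)
          ((g : F) ^ (l ^ N) * x) (k * t) (by simp) (by rw [ht]; ring)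
        exact ⟨σ, hσ, Or.inr ⟨h2, h3⟩⟩
    · rw [Mu_pow, Mu_pow]
      obtain ⟨σ, hσ, h2, h3⟩ := move_out g (GK k g) hcK hTK i j i j x y ((g : F) ^ (l ^ N) * x)
        ((g : F) ^ (l ^ N) * y) hij rfl
      exact ⟨σ, hσ, Or.inl ⟨h2, h3⟩⟩
  · rintro ⟨i, x⟩ ⟨j, y⟩ hne
    set K := Subgroup.closure (insert (Mu k g) (insert (Ro k g) (Set.range (gen k F)))) with hK
    have hm : Mu k g ∈ K := Subgroup.subset_closure (Set.mem_insert _ _)
    have hc : Ro k g ∈ K :=
      Subgroup.subset_closure (Set.mem_insert_of_mem _ (Set.mem_insert _ _))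
    have hT : ∀ f : ZMod k → F, Tr f ∈ K :=
      Tr_mem K (fun i => Subgroup.subset_closure
        (Set.mem_insert_of_mem _ (Set.mem_insert_of_mem _ ⟨i, rfl⟩)))
    by_cases hij : i = j
    · subst hij
      have hxy : y - x ≠ 0 := by
        intro h
        apply hne
        rw [sub_eq_zero.1 h]
      refine PV_emb hP.mono (Equiv.refl _) ?_ h1
      rintro ⟨b, z⟩ ⟨b', z'⟩ ⟨hl, hz⟩
      simp only at hl hz
      subst hl
      have hzz : z' - z ≠ 0 := sub_ne_zero.2 hz.ne'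
      obtain ⟨m, hm'⟩ : ∃ m : ℕ, i + (m : ZMod k) = b := ⟨(b - i).val, by simp⟩
      have hgm : (g : F) ^ m * (y - x) ≠ 0 := mul_ne_zero (pow_ne_zero _ g.ne_zero) hxy
      obtain ⟨s, hs⟩ := hg ((z' - z) / ((g : F) ^ m * (y - x))) (div_ne_zero hzz hgm)
      refine ⟨Tr (fun _ => z - (g : F) ^ s * ((g : F) ^ m * x)) * (Mu k g ^ s * Ro k g ^ m),
        K.mul_mem (hT _) (K.mul_mem (K.pow_mem hm s) (K.pow_mem hc m)), Or.inl ⟨?_, ?_⟩⟩
      · rw [Equiv.Perm.mul_apply, Equiv.Perm.mul_apply, Ro_pow, Mu_pow, Tr_apply]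
        refine Prod.ext hm' ?_
        simp
      · rw [Equiv.Perm.mul_apply, Equiv.Perm.mul_apply, Ro_pow, Mu_pow, Tr_apply]
        refine Prod.ext hm' ?_
        change (g : F) ^ s * ((g : F) ^ m * y) + (z - (g : F) ^ s * ((g : F) ^ m * x)) = z'
        have h2 : (g : F) ^ s * ((g : F) ^ m * (y - x)) = z' - z := by
          rw [hs, div_mul_cancel₀ _ hgm]
        have h3 : z' = z + (g : F) ^ s * ((g : F) ^ m * (y - x)) := by
          rw [h2]
          ring
        rw [h3]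
        ring
    · have hs : j - i ≠ 0 := sub_ne_zero.2 (Ne.symm hij)
      set sh : F → ZMod k := fun z => if χ z = true then j - i else 0 with hsh
      refine PV_emb hP.mono
        { toFun := fun u => (u.1 + sh u.2, u.2)
          invFun := fun u => (u.1 - sh u.2, u.2)
          left_inv := fun u => by simp
          right_inv := fun u => by simp } ?_ h1
      rintro ⟨b, z⟩ ⟨b', z'⟩ ⟨hl, hz⟩
      simp only at hl hz
      subst hl
      have h2 := hχ z z' hz
      rcases hzz : χ z with _ | _ <;> rcases hzz' : χ z' with _ | _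
      · exact absurd (hzz.trans hzz'.symm) h2
      · obtain ⟨σ, hσ, h3, h4⟩ := move_out g K hc hT i j (b + sh z) (b + sh z') x y z z' hij
          (by simp [hsh, hzz, hzz'])
        exact ⟨σ, hσ, Or.inl ⟨h3, h4⟩⟩
      · obtain ⟨σ, hσ, h3, h4⟩ := move_out g K hc hT i j (b + sh z') (b + sh z) x y z' z hij
          (by simp [hsh, hzz, hzz'])
        exact ⟨σ, hσ, Or.inr ⟨h3, h4⟩⟩
      · exact absurd (hzz.trans hzz'.symm) h2

end

/-- the case of a bipartite graph on `Q` vertices, `Q` a prime power -/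
theorem top_case {n q k Q : ℕ} {P : SimpleGraph (Fin n) → Prop} (hP : GP n q P) (hk : k ≠ 0)
    (hQ : IsPrimePow Q) (hn : n = k * Q) (B : SimpleGraph (Fin Q)) (hB : B.Colorable 2)
    (hc : ∃ m : ℕ, (m = Q - 1 ∨ 2 * m = Q - 1) ∧
      (Nat.gcd k m = 1 ∨ IsPrimePow (Nat.gcd k m))) (h0 : ¬ PV P (Fin k × Fin Q) ⊥)
    (h1 : PV P (Fin k × Fin Q) (cop (Fin k) B)) : n.choose 2 ≤ q := by
  classical
  obtain ⟨p, a, hp, ha, rfl⟩ := (isPrimePow_nat_iff Q).1 hQ
  have : Fact p.Prime := ⟨hp⟩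
  have : NeZero k := ⟨hk⟩
  have : Fintype (GaloisField p a) := Fintype.ofFinite _
  have hcard : Fintype.card (GaloisField p a) = p ^ a := by
    rw [← Nat.card_eq_fintype_card]
    exact GaloisField.card p a ha.ne'
  have ek : Fin k ≃ ZMod k := Fintype.equivOfCardEq (by rw [Fintype.card_fin, ZMod.card])
  have ep : Fin (p ^ a) ≃ GaloisField p a :=
    Fintype.equivOfCardEq (by rw [Fintype.card_fin, hcard])
  obtain ⟨C⟩ := hB
  obtain ⟨g, hg⟩ := IsCyclic.exists_monoid_generator (α := (GaloisField p a)ˣ)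
  have hord : orderOf g = p ^ a - 1 := by
    rw [orderOf_eq_card_of_forall_mem_powers hg, Nat.card_units, Nat.card_eq_fintype_card, hcard]
  have hgg : ∀ w : GaloisField p a, w ≠ 0 → ∃ s : ℕ, (g : GaloisField p a) ^ s = w := by
    intro w hw
    obtain ⟨s, hs⟩ := hg (Units.mk0 w hw)
    refine ⟨s, ?_⟩
    have := congrArg (fun z : (GaloisField p a)ˣ => (z : GaloisField p a)) hs
    simpa using this
  have hg1 : (g : GaloisField p a) ^ (p ^ a - 1) = 1 := by
    have : g ^ (p ^ a - 1) = 1 := by rw [← hord]; exact pow_orderOf_eq_one g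
    have := congrArg (fun z : (GaloisField p a)ˣ => (z : GaloisField p a)) this
    simpa using this
  obtain ⟨m, hm, hgcd⟩ := hc
  have hgm : (g : GaloisField p a) ^ m = 1 ∨ (g : GaloisField p a) ^ m = -1 := by
    rcases hm with hm | hm
    · left
      rw [hm, hg1]
    · rw [← sq_eq_one_iff]
      rw [← pow_mul, mul_comm, hm, hg1]
  have hQ2 : 2 ≤ p ^ a := by
    calc 2 ≤ p := hp.two_le
      _ = p ^ 1 := (pow_one p).symm
      _ ≤ p ^ a := Nat.pow_le_pow_right hp.pos ha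
  have hm0 : 0 < m := by omega
  have hpm : ∀ s : ℕ, ((g : GaloisField p a) ^ m) ^ s = 1 ∨ ((g : GaloisField p a) ^ m) ^ s = -1 := by
    intro s
    rcases hgm with h | h
    · left
      rw [h, one_pow]
    · rw [h]
      exact neg_one_pow_eq_or _ s
  have hN : ∃ t : ℕ, (g : GaloisField p a) ^ (Nat.gcd k m) = (g : GaloisField p a) ^ (k * t) ∨
      (g : GaloisField p a) ^ (Nat.gcd k m) = -(g : GaloisField p a) ^ (k * t) := by
    rcases Nat.lt_or_ge (Nat.gcd k m) m with hlt | hge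
    · obtain ⟨t, -, ht⟩ := Nat.exists_mul_mod_eq_gcd hlt
      refine ⟨t, ?_⟩
      have h2 : k * t = m * (k * t / m) + Nat.gcd k m := by
        rw [← ht]
        exact (Nat.div_add_mod _ _).symm
      have h3 : (g : GaloisField p a) ^ (k * t) =
          ((g : GaloisField p a) ^ m) ^ (k * t / m) * (g : GaloisField p a) ^ (Nat.gcd k m) := by
        rw [← pow_mul, ← pow_add, ← h2]
      rcases hpm (k * t / m) with h4 | h4
      · left
        rw [h3, h4, one_mul]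
      · right
        rw [h3, h4]
        ring
    · have h2 : Nat.gcd k m = m := le_antisymm (Nat.gcd_le_right _ hm0) hge
      refine ⟨0, ?_⟩
      rw [h2, mul_zero, pow_zero]
      exact hgm
  obtain ⟨l, N, hl, hlN⟩ : ∃ l N : ℕ, l.Prime ∧ l ^ N = Nat.gcd k m := by
    rcases hgcd with h | h
    · exact ⟨2, 0, Nat.prime_two, by rw [h, pow_zero]⟩
    · obtain ⟨l, N, hl, _, h⟩ := (isPrimePow_nat_iff _).1 h
      exact ⟨l, N, hl, h⟩
  have : Fact l.Prime := ⟨hl⟩
  refine copies_top (k := k) (F := GaloisField p a) hP p (by rw [hcard, hn]) g hgg l N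
    (by rw [hlN]; exact hN) (B.map ep.toEmbedding)
    (fun x => decide (C (ep.symm x) = 0)) ?_ ?_ (PV_cop hP.mono ek ep _ _ ?_ h1)
  · intro x y h
    rw [SimpleGraph.map_adj] at h
    obtain ⟨u, v, huv, rfl, rfl⟩ := h
    have h2 := C.valid huv
    simp only [Equiv.coe_toEmbedding, Equiv.symm_apply_apply, ne_eq, decide_eq_decide]
    intro h3
    apply h2
    by_cases h4 : C u = 0
    · rw [h4, h3.1 h4]
    · have h5 : C v ≠ 0 := fun h => h4 (h3.2 h)
      have h6 : ∀ a b : Fin 2, a ≠ 0 → b ≠ 0 → a = b := by decide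
      exact h6 _ _ h4 h5
  · exact fun h => h0 (PV_bot (Equiv.prodCongr ek ep).symm h)
  · intro x y h
    rw [SimpleGraph.map_adj]
    exact ⟨x, y, h, rfl, rfl⟩

/-- both cases -/
theorem all_cases {n q k Q : ℕ} {P : SimpleGraph (Fin n) → Prop} (hP : GP n q P) (hk : k ≠ 0)
    (hQ : IsPrimePow Q) (hn : n = k * Q) (B : SimpleGraph (Fin Q))
    (hB : (Q.Prime ∧ B = SimpleGraph.pathGraph Q) ∨ (B.Colorable 2 ∧
      ∃ m : ℕ, (m = Q - 1 ∨ 2 * m = Q - 1) ∧ (Nat.gcd k m = 1 ∨ IsPrimePow (Nat.gcd k m))))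
    (h0 : ¬ PV P (Fin k × Fin Q) ⊥) (h1 : PV P (Fin k × Fin Q) (cop (Fin k) B)) :
    n.choose 2 ≤ q := by
  rcases hB with ⟨hp, rfl⟩ | ⟨hB, hc⟩
  · exact path_case hP hk hp hn h0 h1
  · exact top_case hP hk hQ hn B hB hc h0 h1

end Pool.Agent.Y46.Kc
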