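import Mathlib

set_option autoImplicit false

/-!
# Blocks of vertices: graphs with a context (Karp conjecture)

Vertices: the context `Fin r` and `k` blocks, each a copy of the group `W`.
-/

namespace Pool.Agent.Y46.Kc

/-- the vertex set: `r` context vertices and `k` blocks `W` -/
abbrev VV (r k : ℕ) (W : Type) : Type := Fin r ⊕ (ZMod k × W)

/-- The graph `A` on the context, the vertices in `S` are joined to all block vertices; inside the
blocks the differences `± d`, `d ∈ X`; between different blocks the block differences `± t`,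
`t ∈ T`. -/
def GG {r k : ℕ} {W : Type} [AddCommGroup W] (A : SimpleGraph (Fin r)) (S : Set (Fin r))
    (X : Set W) (T : Set (ZMod k)) : SimpleGraph (VV r k W) where
  Adj
    | .inl a, .inl b => A.Adj a b
    | .inl a, .inr _ => a ∈ S
    | .inr _, .inl a => a ∈ S
    | .inr u, .inr v => (u.1 = v.1 ∧ u.2 ≠ v.2 ∧ (v.2 - u.2 ∈ X ∨ u.2 - v.2 ∈ X)) ∨
        (u.1 ≠ v.1 ∧ (v.1 - u.1 ∈ T ∨ u.1 - v.1 ∈ T))
  symm := ⟨by
    rintro (u | u) (v | v) h
    · exact SimpleGraph.Adj.symm h
    · exact h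
    · exact h
    · rcases h with ⟨h1, h2, h3⟩ | ⟨h1, h2⟩
      · exact Or.inl ⟨h1.symm, h2.symm, h3.symm⟩
      · exact Or.inr ⟨fun h => h1 h.symm, h2.symm⟩⟩
  loopless := ⟨by
    rintro (u | u) h
    · exact A.loopless.irrefl u h
    · rcases h with ⟨_, h2, _⟩ | ⟨h1, _⟩
      · exact h2 rfl
      · exact h1 rfl⟩

/-- all edges between blocks of difference `± t` -/
def RR {r k : ℕ} {W : Type} (t : ZMod k) : SimpleGraph (VV r k W) where
  Adj
    | .inl _, .inl _ => False
    | .inl _, .inr _ => False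
    | .inr _, .inl _ => False
    | .inr u, .inr v => u.1 ≠ v.1 ∧ (v.1 - u.1 = t ∨ u.1 - v.1 = t)
  symm := ⟨by
    rintro (u | u) (v | v) h
    · exact h
    · exact h
    · exact h
    · exact ⟨fun h' => h.1 h'.symm, h.2.symm⟩⟩
  loopless := ⟨by
    rintro (u | u) h
    · exact h
    · exact h.1 rfl⟩

/-- representatives of the block differences up to sign -/
structure Half {k m : ℕ} (t : Fin m → ZMod k) : Prop where
  ne : ∀ j, t j ≠ 0
  inj : ∀ i j, (t i = t j ∨ t i = -t j) → i = j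
  surj : ∀ z : ZMod k, z ≠ 0 → ∃ j, z = t j ∨ z = -t j

variable {r k m : ℕ} {W : Type} [AddCommGroup W]

theorem sup_RR (A : SimpleGraph (Fin r)) (S : Set (Fin r)) (X : Set W) (t : Fin m → ZMod k)
    (I : Finset (Fin m)) :
    GG A S X ∅ ⊔ ⨆ j ∈ I, RR (r := r) (W := W) (t j) = GG A S X {z | ∃ j ∈ I, z = t j} := by
  ext u v
  rw [SimpleGraph.sup_adj, SimpleGraph.iSup_adj]
  simp only [SimpleGraph.iSup_adj]
  rcases u with u | u <;> rcases v with v | v
  · constructor
    · rintro (h | ⟨j, hj, h⟩)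
      · exact h
      · exact h.elim
    · exact fun h => Or.inl h
  · constructor
    · rintro (h | ⟨j, hj, h⟩)
      · exact h
      · exact h.elim
    · exact fun h => Or.inl h
  · constructor
    · rintro (h | ⟨j, hj, h⟩)
      · exact h
      · exact h.elim
    · exact fun h => Or.inl h
  · constructor
    · rintro (h | ⟨j, hj, h⟩)
      · rcases h with h | ⟨_, h | h⟩
        · exact Or.inl h
        · exact h.elim
        · exact h.elim
      · exact Or.inr ⟨h.1, h.2.imp (fun h => ⟨j, hj, h⟩) (fun h => ⟨j, hj, h⟩)⟩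
    · rintro (h | ⟨h1, ⟨j, hj, h⟩ | ⟨j, hj, h⟩⟩)
      · exact Or.inl (Or.inl h)
      · exact Or.inr ⟨j, hj, h1, Or.inl h⟩
      · exact Or.inr ⟨j, hj, h1, Or.inr h⟩

/-- a bijection which maps edges to edges -/
theorem GG_emb (A : SimpleGraph (Fin r)) (S : Set (Fin r)) {X X' : Set W} {T : Set (ZMod k)}
    (c : W → ZMod k)
    (h : ∀ x y, x ≠ y → y - x ∈ X' → (c x = c y ∧ y - x ∈ X) ∨ (c x ≠ c y ∧
      (c y - c x ∈ T ∨ c x - c y ∈ T))) :
    ∃ e : VV r k W ≃ VV r k W, ∀ u v, (GG A S X' ∅).Adj u v → (GG A S X T).Adj (e u) (e v) := by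
  refine ⟨Equiv.sumCongr (Equiv.refl _)
    { toFun := fun u => (u.1 + c u.2, u.2)
      invFun := fun u => (u.1 - c u.2, u.2)
      left_inv := fun u => by simp
      right_inv := fun u => by simp }, ?_⟩
  rintro (u | u) (v | v) huv
  · exact huv
  · exact huv
  · exact huv
  · have key : ∀ u v : ZMod k × W, u.1 = v.1 → u.2 ≠ v.2 → v.2 - u.2 ∈ X' →
        (GG A S X T).Adj (.inr (u.1 + c u.2, u.2)) (.inr (v.1 + c v.2, v.2)) := by
      intro u v h1 h2 h3
      rcases h u.2 v.2 h2 h3 with ⟨h4, h5⟩ | ⟨h4, h5⟩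
      · exact Or.inl ⟨by rw [h1, h4], h2, Or.inl h5⟩
      · refine Or.inr ⟨?_, ?_⟩
        · change u.1 + c u.2 ≠ v.1 + c v.2
          rw [h1]
          exact fun h => h4 (add_left_cancel h)
        · change (v.1 + c v.2 - (u.1 + c u.2) ∈ T ∨ u.1 + c u.2 - (v.1 + c v.2) ∈ T)
          rw [h1, add_sub_add_left_eq_sub, add_sub_add_left_eq_sub]
          exact h5
    rcases huv with ⟨h1, h2, h3 | h3⟩ | ⟨_, h | h⟩
    · exact key u v h1 h2 h3
    · exact ((key v u h1.symm h2.symm h3).symm)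
    · exact h.elim
    · exact h.elim

end Pool.Agent.Y46.Kc
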