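import Pool.Agent.Y46.Kc.Top

set_option autoImplicit false

/-!
# Near-evasiveness for `n = k p ^ a`
-/

namespace Pool.Agent.Y46.Kc

open Finset
open Pool.Agent.H119R2.Kp (GP PV)

section units

variable {k : ℕ} [Fact k.Prime]

/-- powers of a generator as representatives of the differences up to sign -/
def pw (u : (ZMod k)ˣ) (m : ℕ) (j : Fin m) : ZMod k := (u : ZMod k) ^ j.val

/-- for a generator `u` of the units, `u ^ ((k - 1) / 2) = -1` -/
theorem gen_half (hk : 3 ≤ k) (u : (ZMod k)ˣ) (hu : orderOf u = k - 1) {m : ℕ}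
    (hm : 2 * m = k - 1) : (u : ZMod k) ^ m = -1 := by
  have h1 : ((u : ZMod k) ^ m) ^ 2 = 1 := by
    rw [← pow_mul, mul_comm, hm, ← hu, ← Units.val_pow_eq_pow_val, pow_orderOf_eq_one,
      Units.val_one]
  rcases sq_eq_one_iff.1 h1 with h | h
  · exfalso
    have h2 : u ^ m = 1 := by
      apply Units.ext
      simpa using h
    have h3 := orderOf_dvd_of_pow_eq_one h2
    rw [hu] at h3
    have h4 := Nat.le_of_dvd (by omega) h3
    omega
  · exact h

theorem half_pw (hk : 3 ≤ k) (u : (ZMod k)ˣ) (hu : orderOf u = k - 1)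
    (hgen : ∀ w : (ZMod k)ˣ, w ∈ Submonoid.powers u) {m : ℕ}
    (hm : 2 * m = k - 1) : Half (pw u m) where
  ne j h := by
    unfold pw at h
    exact (pow_ne_zero _ u.ne_zero) h
  inj i j h := by
    have hi := i.2
    have hj := j.2
    have hpow : ∀ s t : ℕ, (u : ZMod k) ^ s = (u : ZMod k) ^ t → s < k - 1 → t < k - 1 → s = t := by
      intro s t hst hs ht
      have h2 : u ^ s = u ^ t := by
        apply Units.ext
        simpa using hst
      rw [← hu] at hs ht
      exact pow_injOn_Iio_orderOf hs ht h2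
    rcases h with h | h
    · exact Fin.ext (hpow _ _ h (by omega) (by omega))
    · exfalso
      unfold pw at h
      have h2 : (u : ZMod k) ^ i.val = (u : ZMod k) ^ (j.val + m) := by
        rw [h, pow_add, gen_half hk u hu hm]
        ring
      have := hpow _ _ h2 (by omega) (by omega)
      omega
  surj z hz := by
    obtain ⟨s, hs⟩ := hgen (Units.mk0 z hz)
    have hs2 : u ^ (s % (k - 1)) = Units.mk0 z hz := by
      rw [← hs]
      change u ^ (s % (k - 1)) = u ^ s
      rw [← hu, pow_mod_orderOf]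
    have hz2 : (u : ZMod k) ^ (s % (k - 1)) = z := by
      have := congrArg (fun z : (ZMod k)ˣ => (z : ZMod k)) hs2
      simpa using this
    have hlt : s % (k - 1) < k - 1 := Nat.mod_lt _ (by omega)
    by_cases h : s % (k - 1) < m
    · exact ⟨⟨s % (k - 1), h⟩, Or.inl hz2.symm⟩
    · refine ⟨⟨s % (k - 1) - m, by omega⟩, Or.inr ?_⟩
      unfold pw
      simp only
      rw [← hz2]
      have h2 : s % (k - 1) = (s % (k - 1) - m) + m := by omega
      conv_lhs => rw [h2, pow_add, gen_half hk u hu hm]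
      ring

end units

section

variable {r k m : ℕ} {W : Type} [AddCommGroup W]

theorem GG_full {t : Fin m → ZMod k} (ht : Half t) (A : SimpleGraph (Fin r)) (S : Set (Fin r))
    (X : Set W) :
    GG A S X {z | ∃ j ∈ (univ : Finset (Fin m)), z = t j} = GG A S X Set.univ := by
  ext u v
  rcases u with u | u <;> rcases v with v | v
  · exact Iff.rfl
  · exact Iff.rfl
  · exact Iff.rfl
  · constructor
    · rintro (h | h)
      · exact Or.inl h
      · exact Or.inr ⟨h.1, Or.inl trivial⟩
    · rintro (h | h)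
      · exact Or.inl h
      · refine Or.inr ⟨h.1, ?_⟩
        obtain ⟨j, hj⟩ := ht.surj (v.1 - u.1) (sub_ne_zero.2 h.1.symm)
        rcases hj with hj | hj
        · exact Or.inl ⟨j, mem_univ _, hj⟩
        · exact Or.inr ⟨j, mem_univ _, by rw [← neg_sub, hj, neg_neg]⟩

theorem GG_none (t : Fin m → ZMod k) (A : SimpleGraph (Fin r)) (S : Set (Fin r))
    (X : Set W) :
    GG A S X {z | ∃ j ∈ (∅ : Finset (Fin m)), z = t j} = GG A S X ∅ := by
  congr 1
  ext z
  simp

/-- multiplication of the block number by a unit -/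
def Bm (r : ℕ) {k : ℕ} (W : Type) (u : (ZMod k)ˣ) : Equiv.Perm (VV r k W) :=
  Equiv.sumCongr (Equiv.refl _) (Equiv.prodCongr (Units.mulLeft u) (Equiv.refl _))

theorem Bm_inr (u : (ZMod k)ˣ) (w : ZMod k × W) : Bm r W u (.inr w) = .inr (u * w.1, w.2) := rfl

/-- the graph with multiplied block differences -/
theorem GG_Bm (A : SimpleGraph (Fin r)) (S : Set (Fin r)) (X : Set W) (T T' : Set (ZMod k))
    (u : (ZMod k)ˣ) (h : ∀ z ∈ T, (u : ZMod k) * z ∈ T' ∨ -((u : ZMod k) * z) ∈ T')
    (v w : VV r k W) (hvw : (GG A S X T).Adj v w) :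
    (GG A S X T').Adj (Bm r W u v) (Bm r W u w) := by
  rcases v with v | v <;> rcases w with w | w
  · exact hvw
  · exact hvw
  · exact hvw
  · rw [Bm_inr, Bm_inr]
    rcases hvw with ⟨h1, h2, h3⟩ | ⟨h1, h2⟩
    · refine Or.inl ⟨?_, h2, h3⟩
      change (u : ZMod k) * v.1 = u * w.1
      rw [h1]
    · refine Or.inr ⟨?_, ?_⟩
      · change (u : ZMod k) * v.1 ≠ u * w.1
        exact fun h' => h1 (u.isUnit.mul_left_cancel h')
      · change ((u : ZMod k) * w.1 - u * v.1 ∈ T' ∨ (u : ZMod k) * v.1 - u * w.1 ∈ T')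
        have e1 : (u : ZMod k) * w.1 - u * v.1 = u * (w.1 - v.1) := by ring
        have e2 : (u : ZMod k) * v.1 - u * w.1 = -(u * (w.1 - v.1)) := by ring
        have e3 : (u : ZMod k) * v.1 - u * w.1 = u * (v.1 - w.1) := by ring
        have e4 : (u : ZMod k) * w.1 - u * v.1 = -(u * (v.1 - w.1)) := by ring
        rcases h2 with h2 | h2
        · rcases h _ h2 with h3 | h3
          · left; rw [e1]; exact h3
          · right; rw [e2]; exact h3
        · rcases h _ h2 with h3 | h3
          · right; rw [e3]; exact h3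
          · left; rw [e4]; exact h3

end

/-- a proper colouring of the cycle `ZMod p` with three colours of `ZMod k` -/
def col (p k : ℕ) (z : ZMod p) : ZMod k :=
  if z.val + 1 = p then 2 else ((z.val % 2 : ℕ) : ZMod k)

theorem col_ne (p k : ℕ) [Fact p.Prime] (hk : 3 ≤ k) (z : ZMod p) : col p k z ≠ col p k (z + 1) := by
  have hp := (Fact.out : p.Prime).two_le
  have : NeZero p := ⟨by omega⟩
  have hcast : ∀ a b : ℕ, a < 3 → b < 3 → a ≠ b → ((a : ℕ) : ZMod k) ≠ ((b : ℕ) : ZMod k) := by
    intro a b ha hb hab h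
    rw [ZMod.natCast_eq_natCast_iff', Nat.mod_eq_of_lt (by omega), Nat.mod_eq_of_lt (by omega)] at h
    exact hab h
  have hz := z.val_lt
  have hval : (z + 1).val = if z.val + 1 = p then 0 else z.val + 1 := by
    rw [ZMod.val_add, ZMod.val_one'' (by omega)]
    split_ifs with h
    · rw [h, Nat.mod_self]
    · exact Nat.mod_eq_of_lt (by omega)
  unfold col
  rw [hval]
  split_ifs with h1 h2 h3
  · omega
  · intro h
    refine hcast 2 0 (by omega) (by omega) (by omega) ?_
    rw [Nat.zero_mod] at h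
    exact_mod_cast h
  · refine fun h => hcast (z.val % 2) 2 (by omega) (by omega) (by omega) ?_
    rw [h]
    norm_num
  · exact hcast _ _ (by omega) (by omega) (by omega)

section

variable {r k a p : ℕ}

/-- one more difference inside the blocks is not better than all edges between the blocks -/
theorem step_all [Fact p.Prime] (hk : 3 ≤ k) (A : SimpleGraph (Fin r)) (S : Set (Fin r))
    (X : Set (Fin a → ZMod p)) (d : Fin a → ZMod p) (hd : d ≠ 0) :
    ∃ e : VV r k (Fin a → ZMod p) ≃ VV r k (Fin a → ZMod p),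
      ∀ u v, (GG A S (insert d X) ∅).Adj u v → (GG A S X Set.univ).Adj (e u) (e v) := by
  obtain ⟨l, hl⟩ : ∃ l, d l ≠ 0 := by
    by_contra h
    push Not at h
    exact hd (funext h)
  refine GG_emb A S (fun x => col p k (x l * (d l)⁻¹)) ?_
  intro x y _ hxy
  by_cases hc : col p k (x l * (d l)⁻¹) = col p k (y l * (d l)⁻¹)
  · left
    refine ⟨hc, hxy.resolve_left fun h => ?_⟩
    have h2 : y l = x l + d l := by
      have := congrFun h l
      rw [Pi.sub_apply] at this
      rw [← this]
      ring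
    have h3 : y l * (d l)⁻¹ = x l * (d l)⁻¹ + 1 := by
      rw [h2, add_mul, mul_inv_cancel₀ hl]
    rw [h3] at hc
    exact col_ne p k hk _ hc
  · exact Or.inr ⟨hc, Or.inl trivial⟩

theorem GG_insert_zero (A : SimpleGraph (Fin r)) (S : Set (Fin r)) (X : Set (Fin a → ZMod p))
    (T : Set (ZMod k)) : GG A S (insert 0 X) T = GG A S X T := by
  ext u v
  rcases u with u | u <;> rcases v with v | v
  · exact Iff.rfl
  · exact Iff.rfl
  · exact Iff.rfl
  · constructor
    · rintro (⟨h1, h2, (h3 | h3) | (h3 | h3)⟩ | h)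
      · exact absurd (sub_eq_zero.1 h3).symm h2
      · exact Or.inl ⟨h1, h2, Or.inl h3⟩
      · exact absurd (sub_eq_zero.1 h3) h2
      · exact Or.inl ⟨h1, h2, Or.inr h3⟩
      · exact Or.inr h
    · rintro (⟨h1, h2, h3 | h3⟩ | h)
      · exact Or.inl ⟨h1, h2, Or.inl (Or.inr h3)⟩
      · exact Or.inl ⟨h1, h2, Or.inr (Or.inr h3)⟩
      · exact Or.inr h

/-- **The chain.** If the value of the property on a graph never changes when all edges between the
blocks are added, then it does not depend on the edges in the block part. -/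
theorem chain [Fact p.Prime] (hk : 3 ≤ k) {n : ℕ} {P : SimpleGraph (Fin n) → Prop}
    (hmono : ∀ G H : SimpleGraph (Fin n), G ≤ H → P G → P H)
    (A : SimpleGraph (Fin r)) (S : Set (Fin r))
    (hBR : ∀ X : Set (Fin a → ZMod p), PV P (VV r k (Fin a → ZMod p)) (GG A S X Set.univ) →
      PV P (VV r k (Fin a → ZMod p)) (GG A S X ∅))
    (h1 : PV P (VV r k (Fin a → ZMod p)) (GG A S Set.univ Set.univ)) :
    PV P (VV r k (Fin a → ZMod p)) (GG A S ∅ ∅) := by
  classical
  by_contra h0
  have key : ∀ X : Finset (Fin a → ZMod p),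
      ¬ PV P (VV r k (Fin a → ZMod p)) (GG A S (X : Set (Fin a → ZMod p)) ∅) := by
    intro X
    induction X using Finset.induction_on with
    | empty => rwa [coe_empty]
    | insert d X _ ih =>
      rw [coe_insert]
      by_cases hd : d = 0
      · rw [hd, GG_insert_zero]
        exact ih
      · intro h
        obtain ⟨e, he⟩ := step_all (r := r) hk A S (X : Set (Fin a → ZMod p)) d hd
        exact ih (hBR _ (PV_emb hmono e he h))
  apply key univ
  rw [coe_univ]
  exact hBR _ h1

end

/-! ### the shift of the block differences -/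

section shift

open Fin.NatCast Fin.CommRing

variable {m : ℕ}

/-- the cyclic shift -/
def sft (m : ℕ) : Equiv.Perm (Fin (m + 1)) := Equiv.addRight 1

theorem sft_pow (t : ℕ) (j : Fin (m + 1)) : (sft m ^ t) j = j + (t : Fin (m + 1)) := by
  induction t with
  | zero => simp
  | succ t ih =>
    rw [pow_succ', Equiv.Perm.mul_apply, ih]
    change j + (t : Fin (m + 1)) + 1 = _
    push_cast
    rw [add_assoc]

theorem sft_pow_self : sft m ^ (m + 1) = 1 := by
  apply Equiv.ext
  intro j
  rw [sft_pow, Fin.natCast_self, add_zero]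
  rfl

theorem mem_fc (π : Equiv.Perm (Fin (m + 1))) (I : Finset (Fin (m + 1))) (j : Fin (m + 1)) :
    π j ∈ π.finsetCongr I ↔ j ∈ I := by
  rw [Equiv.finsetCongr_apply, Finset.mem_map_equiv, Equiv.symm_apply_apply]

theorem fixed_one (I : Finset (Fin (m + 1))) (h : (sft m).finsetCongr I = I) :
    I = ∅ ∨ I = univ := by
  rcases I.eq_empty_or_nonempty with h0 | ⟨j, hj⟩
  · exact Or.inl h0
  · right
    have h1 : ∀ t : ℕ, j + (t : Fin (m + 1)) ∈ I := by
      intro t
      induction t with
      | zero => simpa using hj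
      | succ t ih =>
        have h2 := (mem_fc (sft m) I _).2 ih
        rw [h] at h2
        have h3 : sft m (j + (t : Fin (m + 1))) = j + ((t + 1 : ℕ) : Fin (m + 1)) := by
          change j + (t : Fin (m + 1)) + 1 = _
          push_cast
          rw [add_assoc]
        rwa [h3] at h2
    ext i
    simp only [mem_univ, iff_true]
    have h2 := h1 (i - j).val
    rw [Fin.cast_val_eq_self, add_sub_cancel] at h2
    exact h2

variable {k : ℕ} [Fact k.Prime]

theorem pw_sft (hk : 3 ≤ k) (u : (ZMod k)ˣ) (hu : orderOf u = k - 1)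
    (hm : 2 * (m + 1) = k - 1) (j : Fin (m + 1)) :
    pw u (m + 1) (sft m j) = u * pw u (m + 1) j ∨
      pw u (m + 1) (sft m j) = -(u * pw u (m + 1) j) := by
  change pw u (m + 1) (j + 1) = _ ∨ pw u (m + 1) (j + 1) = _
  unfold pw
  by_cases h : j = Fin.last m
  · right
    rw [h, Fin.last_add_one, Fin.val_zero, pow_zero, Fin.val_last, ← pow_succ',
      gen_half hk u hu hm, neg_neg]
  · left
    rw [Fin.val_add_one_of_lt (Fin.lt_last_iff_ne_last.2 h), pow_succ']

open Classical in
/-- the values on the graphs with block differences in `I` are invariant under the shift -/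
theorem val_sft {n : ℕ} {P : SimpleGraph (Fin n) → Prop}
    (hmono : ∀ G H : SimpleGraph (Fin n), G ≤ H → P G → P H) {r : ℕ} {W : Type} [AddCommGroup W]
    (hk : 3 ≤ k) (u : (ZMod k)ˣ) (hu : orderOf u = k - 1)
    (hm : 2 * (m + 1) = k - 1) (A : SimpleGraph (Fin r)) (S : Set (Fin r)) (X : Set W)
    (I : Finset (Fin (m + 1))) :
    PV P (VV r k W) (GG A S X {z | ∃ j ∈ (sft m).finsetCongr I, z = pw u (m + 1) j}) ↔
      PV P (VV r k W) (GG A S X {z | ∃ j ∈ I, z = pw u (m + 1) j}) := by
  constructor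
  · intro h
    refine PV_emb hmono (Bm r W u⁻¹) (fun v w hvw => GG_Bm A S X _ _ u⁻¹ ?_ v w hvw) h
    rintro z ⟨j, hj, rfl⟩
    obtain ⟨i, rfl⟩ := (sft m).surjective j
    rw [mem_fc] at hj
    have hinv : ∀ y : ZMod k, ((u⁻¹ : (ZMod k)ˣ) : ZMod k) * (u * y) = y := by
      intro y
      rw [← mul_assoc, Units.inv_mul, one_mul]
    rcases pw_sft hk u hu hm i with h2 | h2
    · left
      refine ⟨i, hj, ?_⟩
      rw [h2, hinv]
    · right
      refine ⟨i, hj, ?_⟩
      rw [h2, mul_neg, neg_neg, hinv]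
  · intro h
    refine PV_emb hmono (Bm r W u) (fun v w hvw => GG_Bm A S X _ _ u ?_ v w hvw) h
    rintro z ⟨j, hj, rfl⟩
    rcases pw_sft hk u hu hm j with h2 | h2
    · left
      exact ⟨sft m j, (mem_fc _ _ _).2 hj, h2.symm⟩
    · right
      exact ⟨sft m j, (mem_fc _ _ _).2 hj, h2.symm⟩

end shift

theorem exists_gen (k : ℕ) [Fact k.Prime] : ∃ u : (ZMod k)ˣ, orderOf u = k - 1 ∧
    ∀ w : (ZMod k)ˣ, w ∈ Submonoid.powers u := by
  obtain ⟨u, hu⟩ := IsCyclic.exists_monoid_generator (α := (ZMod k)ˣ)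
  refine ⟨u, ?_, hu⟩
  rw [orderOf_eq_card_of_forall_mem_powers hu, Nat.card_eq_fintype_card, ZMod.card_units]

open Classical in
/-- **The blocks `(k - 1) / 2` a prime power.** -/
theorem br_one {n q : ℕ} {P : SimpleGraph (Fin n) → Prop} (hP : GP n q P) (p a : ℕ) [Fact p.Prime]
    {k r : ℕ} [Fact k.Prime] (hk : 3 ≤ k) (hn : r + k * p ^ a = n) (l N : ℕ) [Fact l.Prime]
    (hm : 2 * l ^ N = k - 1) (hq : q < k.choose 2 * (p ^ a) ^ 2) (A : SimpleGraph (Fin r))
    (S : Set (Fin r)) (X : Set (Fin a → ZMod p))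
    (h : PV P (VV r k (Fin a → ZMod p)) (GG A S X Set.univ)) :
    PV P (VV r k (Fin a → ZMod p)) (GG A S X ∅) := by
  obtain ⟨m, hmm⟩ : ∃ m, l ^ N = m + 1 :=
    ⟨l ^ N - 1, by have := Nat.pos_of_ne_zero (pow_ne_zero N (Fact.out : l.Prime).ne_zero); omega⟩
  rw [hmm] at hm
  obtain ⟨u, hu, hgen⟩ := exists_gen k
  have : NeZero k := ⟨by omega⟩
  have hhalf := half_pw hk u hu hgen hm
  by_contra h0
  set v : Finset (Fin (m + 1)) → Prop := fun I =>
    PV P (VV r k (Fin a → ZMod p)) (GG A S X {z | ∃ j ∈ I, z = pw u (m + 1) j}) with hv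
  have hvuniv : v univ := by
    rw [hv]
    simp only
    rw [GG_full hhalf]
    exact h
  have hvempty : ¬ v ∅ := by
    rw [hv]
    simp only
    rw [GG_none]
    exact h0
  have key : ∑ I : Finset (Fin (m + 1)), (-1 : ℤ) ^ I.card * (if v I then 1 else 0) = 0 :=
    relGG hP p a hn (pw u (m + 1)) hhalf hq A S X
  have hf := sum_fixed ((sft m).finsetCongr : Equiv.Perm (Finset (Fin (m + 1)))) l N (by
    intro I
    rw [fc_pow, hmm, sft_pow_self]
    ext x
    rw [Equiv.finsetCongr_apply, Finset.mem_map_equiv]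
    exact Iff.rfl) (fun I => (-1 : ℤ) ^ I.card * (if v I then 1 else 0)) (by
    intro I
    have h2 : ((sft m).finsetCongr I).card = I.card := by
      rw [Equiv.finsetCongr_apply, Finset.card_map]
    have h3 : v ((sft m).finsetCongr I) ↔ v I := val_sft hP.mono hk u hu hm A S X I
    simp only [h3, h2])
  rw [key] at hf
  have hfil : (univ.filter fun I : Finset (Fin (m + 1)) =>
      ((sft m).finsetCongr : Equiv.Perm (Finset (Fin (m + 1)))) I = I) = {∅, univ} := by
    ext I
    simp only [mem_filter, mem_univ, true_and, mem_insert, mem_singleton]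
    constructor
    · exact fixed_one I
    · rintro (rfl | rfl)
      · simp
      · simp
  have hne : (∅ : Finset (Fin (m + 1))) ≠ univ := by
    intro h2
    have := Finset.mem_univ (0 : Fin (m + 1))
    rw [← h2] at this
    exact absurd this (Finset.notMem_empty _)
  rw [hfil, Finset.sum_pair hne, if_neg hvempty, if_pos hvuniv] at hf
  simp only [mul_zero, mul_one, zero_add, zero_sub] at hf
  have h2 : (l : ℤ) ∣ 1 := by
    have h3 := dvd_neg.1 hf
    rcases neg_one_pow_eq_or ℤ (univ : Finset (Fin (m + 1))).card with h4 | h4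
    · rwa [h4] at h3
    · rw [h4] at h3
      exact dvd_neg.1 h3
  have h4 : l ∣ 1 := by exact_mod_cast h2
  exact (Fact.out : l.Prime).one_lt.ne' (Nat.dvd_one.1 h4)

end Pool.Agent.Y46.Kc
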