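import Pool.Agent.Y46.Kc.Near

set_option autoImplicit false

/-!
# The case that `(k - 1) / 4` is a power of an odd prime
-/

namespace Pool.Agent.Y46.Kc

open Finset
open Pool.Agent.H119R2.Kp (GP PV)

section shift

open Fin.NatCast Fin.CommRing

variable {m : ℕ}

/-- the even differences -/
def Ev (m : ℕ) : Finset (Fin (m + 1)) := univ.filter fun j => j.val % 2 = 0

/-- the odd differences -/
def Od (m : ℕ) : Finset (Fin (m + 1)) := univ.filter fun j => ¬ j.val % 2 = 0

theorem val_add_two (hm : (m + 1) % 2 = 0) (j : Fin (m + 1)) :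
    (j + 1).val % 2 = (j.val + 1) % 2 := by
  by_cases h : j = Fin.last m
  · rw [h, Fin.last_add_one, Fin.val_zero, Fin.val_last]
    omega
  · rw [Fin.val_add_one_of_lt (Fin.lt_last_iff_ne_last.2 h)]

theorem sft_Ev (hm : (m + 1) % 2 = 0) : (sft m).finsetCongr (Ev m) = Od m := by
  ext j
  obtain ⟨i, rfl⟩ := (sft m).surjective j
  rw [mem_fc]
  unfold Ev Od
  simp only [mem_filter, mem_univ, true_and]
  have := val_add_two hm i
  change i.val % 2 = 0 ↔ ¬ (i + 1).val % 2 = 0
  omega

theorem sft_Od (hm : (m + 1) % 2 = 0) : (sft m).finsetCongr (Od m) = Ev m := by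
  ext j
  obtain ⟨i, rfl⟩ := (sft m).surjective j
  rw [mem_fc]
  unfold Ev Od
  simp only [mem_filter, mem_univ, true_and]
  have := val_add_two hm i
  change ¬ i.val % 2 = 0 ↔ (i + 1).val % 2 = 0
  omega

theorem fixed_two (hm : (m + 1) % 2 = 0) (I : Finset (Fin (m + 1)))
    (h : ((sft m) ^ 2).finsetCongr I = I) : I = ∅ ∨ I = univ ∨ I = Ev m ∨ I = Od m := by
  have h1 : ∀ j : Fin (m + 1), j ∈ I → ∀ t : ℕ, j + ((2 * t : ℕ) : Fin (m + 1)) ∈ I := by
    intro j hj t
    induction t with
    | zero => simpa using hj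
    | succ t ih =>
      have h2 := (mem_fc ((sft m) ^ 2) I _).2 ih
      rw [h] at h2
      have h3 : ((sft m) ^ 2) (j + ((2 * t : ℕ) : Fin (m + 1))) =
          j + ((2 * (t + 1) : ℕ) : Fin (m + 1)) := by
        rw [sft_pow]
        push_cast
        ring
      rwa [h3] at h2
  -- membership depends on the parity only
  have h2 : ∀ i j : Fin (m + 1), i.val % 2 = j.val % 2 → i ∈ I → j ∈ I := by
    intro i j hij hi
    have h3 := h1 i hi ((j.val + (m + 1) - i.val) / 2)
    have h4 : i + ((2 * ((j.val + (m + 1) - i.val) / 2) : ℕ) : Fin (m + 1)) = j := by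
      have h5 : 2 * ((j.val + (m + 1) - i.val) / 2) = j.val + (m + 1) - i.val := by
        have := i.2
        omega
      rw [h5]
      have h6 : ((i.val : ℕ) : Fin (m + 1)) + ((j.val + (m + 1) - i.val : ℕ) : Fin (m + 1)) =
          ((j.val : ℕ) : Fin (m + 1)) := by
        rw [← Nat.cast_add]
        have h7 : i.val + (j.val + (m + 1) - i.val) = j.val + (m + 1) := by
          have := i.2
          omega
        rw [h7, Nat.cast_add, Fin.natCast_self, add_zero]
      rwa [Fin.cast_val_eq_self, Fin.cast_val_eq_self] at h6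
    rwa [h4] at h3
  have hm1 : 1 ≤ m := by omega
  have hv1 : (1 : Fin (m + 1)).val = 1 := by
    rw [Fin.val_one']
    exact Nat.mod_eq_of_lt (by omega)
  by_cases e0 : (0 : Fin (m + 1)) ∈ I <;> by_cases e1 : (1 : Fin (m + 1)) ∈ I
  · right; left
    ext j
    simp only [mem_univ, iff_true]
    rcases Nat.mod_two_eq_zero_or_one j.val with h3 | h3
    · exact h2 0 j (by rw [h3, Fin.val_zero]) e0
    · exact h2 1 j (by rw [h3, hv1]) e1
  · right; right; left
    ext j
    unfold Ev
    simp only [mem_filter, mem_univ, true_and]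
    rcases Nat.mod_two_eq_zero_or_one j.val with h3 | h3
    · exact ⟨fun _ => h3, fun _ => h2 0 j (by rw [h3, Fin.val_zero]) e0⟩
    · exact ⟨fun hj => absurd (h2 j 1 (by rw [h3, hv1]) hj) e1, fun hj => by omega⟩
  · right; right; right
    ext j
    unfold Od
    simp only [mem_filter, mem_univ, true_and]
    rcases Nat.mod_two_eq_zero_or_one j.val with h3 | h3
    · exact ⟨fun hj => absurd (h2 j 0 (by rw [h3, Fin.val_zero]) hj) e0, fun hj => by omega⟩
    · exact ⟨fun _ => by omega, fun _ => h2 1 j (by rw [h3, hv1]) e1⟩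
  · left
    ext j
    simp only [Finset.notMem_empty, iff_false]
    rcases Nat.mod_two_eq_zero_or_one j.val with h3 | h3
    · exact fun hj => e0 (h2 j 0 (by rw [h3, Fin.val_zero]) hj)
    · exact fun hj => e1 (h2 j 1 (by rw [h3, hv1]) hj)

end shift

open Classical in
/-- **The case `(k - 1) / 4` a power of an odd prime.** -/
theorem br_two {n q : ℕ} {P : SimpleGraph (Fin n) → Prop} (hP : GP n q P) (p a : ℕ) [Fact p.Prime]
    {k r : ℕ} [Fact k.Prime] (hk : 3 ≤ k) (hn : r + k * p ^ a = n) (l N : ℕ) [Fact l.Prime]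
    (hl : l ≠ 2) (hm : 2 * (2 * l ^ N) = k - 1) (hq : q < k.choose 2 * (p ^ a) ^ 2)
    (A : SimpleGraph (Fin r)) (S : Set (Fin r)) (X : Set (Fin a → ZMod p))
    (h : PV P (VV r k (Fin a → ZMod p)) (GG A S X Set.univ)) :
    PV P (VV r k (Fin a → ZMod p)) (GG A S X ∅) := by
  have hlodd : Odd (l ^ N) := ((Fact.out : l.Prime).odd_of_ne_two hl).pow
  obtain ⟨m, hmm⟩ : ∃ m, 2 * l ^ N = m + 1 :=
    ⟨2 * l ^ N - 1, by
      have := Nat.pos_of_ne_zero (pow_ne_zero N (Fact.out : l.Prime).ne_zero)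
      omega⟩
  rw [hmm] at hm
  have hm2 : (m + 1) % 2 = 0 := by omega
  obtain ⟨u, hu, hgen⟩ := exists_gen k
  have : NeZero k := ⟨by omega⟩
  have hhalf := half_pw hk u hu hgen hm
  by_contra h0
  set v : Finset (Fin (m + 1)) → Prop := fun I =>
    PV P (VV r k (Fin a → ZMod p)) (GG A S X {z | ∃ j ∈ I, z = pw u (m + 1) j}) with hv
  have hvuniv : v univ := by
    rw [hv]
    simp only
    rw [GG_full hhalf]
    exact h
  have hvempty : ¬ v ∅ := by
    rw [hv]
    simp only
    rw [GG_none]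
    exact h0
  have key : ∑ I : Finset (Fin (m + 1)), (-1 : ℤ) ^ I.card * (if v I then 1 else 0) = 0 :=
    relGG hP p a hn (pw u (m + 1)) hhalf hq A S X
  have hvs : ∀ I, v ((sft m).finsetCongr I) ↔ v I := fun I =>
    val_sft hP.mono hk u hu hm A S X I
  have hcs : ∀ (π : Equiv.Perm (Fin (m + 1))) I, (π.finsetCongr I).card = I.card := by
    intro π I
    rw [Equiv.finsetCongr_apply, Finset.card_map]
  have hsq : ∀ I, ((sft m) ^ 2).finsetCongr I = (sft m).finsetCongr ((sft m).finsetCongr I) := by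
    intro I
    rw [← fc_pow, pow_two]
    rfl
  have hf := sum_fixed (((sft m) ^ 2).finsetCongr : Equiv.Perm (Finset (Fin (m + 1)))) l N (by
    intro I
    rw [fc_pow, ← pow_mul, hmm, sft_pow_self]
    ext x
    rw [Equiv.finsetCongr_apply, Finset.mem_map_equiv]
    exact Iff.rfl) (fun I => (-1 : ℤ) ^ I.card * (if v I then 1 else 0)) (by
    intro I
    have h3 : v (((sft m) ^ 2).finsetCongr I) ↔ v I := by
      rw [hsq, hvs, hvs]
    simp only [h3, hcs])
  rw [key] at hf
  have hcard : (Ev m).card + (Od m).card = m + 1 := by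
    have := Finset.card_filter_add_card_filter_not (s := (univ : Finset (Fin (m + 1))))
      (fun j => j.val % 2 = 0)
    rw [card_univ, Fintype.card_fin] at this
    exact this
  have hcE : (Ev m).card = (Od m).card := by
    rw [← sft_Ev hm2, hcs]
  have hcE2 : (Ev m).card = l ^ N := by omega
  have hm1 : 1 ≤ m := by omega
  have m0 : (0 : Fin (m + 1)) ∈ Ev m := by simp [Ev]
  have m1 : (1 : Fin (m + 1)) ∈ Od m := by
    simp [Od, Nat.mod_eq_of_lt (show 1 < m + 1 by omega)]
  have n0 : (0 : Fin (m + 1)) ∉ Od m := by simp [Od]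
  have n1 : (1 : Fin (m + 1)) ∉ Ev m := by
    simp [Ev, Nat.mod_eq_of_lt (show 1 < m + 1 by omega)]
  have hfil : (univ.filter fun I : Finset (Fin (m + 1)) =>
      (((sft m) ^ 2).finsetCongr : Equiv.Perm (Finset (Fin (m + 1)))) I = I) =
      {∅, univ, Ev m, Od m} := by
    ext I
    simp only [mem_filter, mem_univ, true_and, mem_insert, mem_singleton]
    constructor
    · exact fixed_two hm2 I
    · rintro (rfl | rfl | rfl | rfl)
      · simp
      · simp
      · rw [hsq, sft_Ev hm2, sft_Od hm2]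
      · rw [hsq, sft_Od hm2, sft_Ev hm2]
  have d1 : (∅ : Finset (Fin (m + 1))) ∉ ({univ, Ev m, Od m} : Finset (Finset (Fin (m + 1)))) := by
    simp only [mem_insert, mem_singleton, not_or]
    refine ⟨fun h => ?_, fun h => ?_, fun h => ?_⟩
    · exact absurd (by rw [h]; exact mem_univ 0 : (0 : Fin (m + 1)) ∈ (∅ : Finset _))
        (Finset.notMem_empty _)
    · rw [← h] at m0
      exact absurd m0 (Finset.notMem_empty _)
    · rw [← h] at m1
      exact absurd m1 (Finset.notMem_empty _)
  have d2 : (univ : Finset (Fin (m + 1))) ∉ ({Ev m, Od m} : Finset (Finset (Fin (m + 1)))) := by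
    simp only [mem_insert, mem_singleton, not_or]
    refine ⟨fun h => ?_, fun h => ?_⟩
    · rw [← h] at n1
      exact n1 (mem_univ _)
    · rw [← h] at n0
      exact n0 (mem_univ _)
  have d3 : Ev m ∉ ({Od m} : Finset (Finset (Fin (m + 1)))) := by
    simp only [mem_singleton]
    intro h
    rw [← h] at n0
    exact n0 m0
  have hvEO : v (Od m) ↔ v (Ev m) := by
    rw [← sft_Ev hm2]
    exact hvs _
  rw [hfil, Finset.sum_insert d1, Finset.sum_insert d2, Finset.sum_insert d3,
    Finset.sum_singleton, if_neg hvempty, if_pos hvuniv, ← hcE, hcE2, hlodd.neg_one_pow,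
    card_univ, Fintype.card_fin, ← hmm, (even_two_mul (l ^ N)).neg_one_pow] at hf
  have hle : l ∣ 1 := by
    have h2 : (l : ℤ) ∣ 1 := by
      by_cases hE : v (Ev m)
      · rw [if_pos hE, if_pos (hvEO.2 hE)] at hf
        norm_num at hf
        exact hf
      · rw [if_neg hE, if_neg (fun h => hE (hvEO.1 h))] at hf
        norm_num at hf
        exact hf
    exact_mod_cast h2
  exact (Fact.out : l.Prime).one_lt.ne' (Nat.dvd_one.1 hle)

/-- both cases together, with the chain -/
theorem near {n q : ℕ} {P : SimpleGraph (Fin n) → Prop} (hP : GP n q P) (p a : ℕ) [Fact p.Prime]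
    {k r : ℕ} (hk : k.Prime) (hk3 : 3 ≤ k) (hn : r + k * p ^ a = n) (l N : ℕ) (hl : l.Prime)
    (hm : k = 2 * l ^ N + 1 ∨ k = 4 * l ^ N + 1) (hq : q < k.choose 2 * (p ^ a) ^ 2)
    (A : SimpleGraph (Fin r)) (S : Set (Fin r))
    (h1 : PV P (VV r k (Fin a → ZMod p)) (GG A S Set.univ Set.univ)) :
    PV P (VV r k (Fin a → ZMod p)) (GG A S ∅ ∅) := by
  have : Fact k.Prime := ⟨hk⟩
  have : Fact l.Prime := ⟨hl⟩
  refine chain hk3 hP.mono A S (fun X h => ?_) h1
  rcases hm with hm | hm
  · exact br_one hP p a hk3 hn l N (by omega) hq A S X h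
  · by_cases h2 : l = 2
    · subst h2
      refine br_one hP p a hk3 hn 2 (N + 1) ?_ hq A S X h
      rw [pow_succ]
      omega
    · exact br_two hP p a hk3 hn l N h2 (by omega) hq A S X h

end Pool.Agent.Y46.Kc
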