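import Pool.Agent.H119R2.Kp.Rel

set_option autoImplicit false

/-!
# A property which holds for all orbit graphs of an Oliver group is evasive
-/

namespace Pool.Agent.Y46.Kc

open Finset
open Pool.Agent.H119R2.Kp (GP PV)

/-- the graph whose edges are the images of the pair `u, v` under the group `K` -/
def orbG {V : Type} (K : Subgroup (Equiv.Perm V)) (u v : V) (h : u ≠ v) : SimpleGraph V where
  Adj x y := ∃ g ∈ K, (g u = x ∧ g v = y) ∨ (g u = y ∧ g v = x)
  symm := ⟨by
    rintro x y ⟨g, hg, h⟩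
    exact ⟨g, hg, h.symm⟩⟩
  loopless := ⟨by
    rintro x ⟨g, _, ⟨h1, h2⟩ | ⟨h1, h2⟩⟩
    · exact h (g.injective (h1.trans h2.symm))
    · exact h (g.injective (h1.trans h2.symm))⟩

section

variable {V : Type}

/-- orbit equivalence of edges -/
def st (K : Subgroup (Equiv.Perm V)) : Setoid {e : Sym2 V // ¬ e.IsDiag} where
  r e e' := ∃ g ∈ K, Sym2.map g e.1 = e'.1
  iseqv :=
    { refl := fun e => ⟨1, K.one_mem, by simp⟩
      symm := by
        rintro e e' ⟨g, hg, h⟩
        refine ⟨g⁻¹, K.inv_mem hg, ?_⟩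
        rw [← h, Sym2.map_map]
        have : (⇑g⁻¹ ∘ ⇑g) = id := by
          funext x
          simp
        rw [this, Sym2.map_id, id_eq]
      trans := by
        rintro e e' e'' ⟨g, hg, h⟩ ⟨g', hg', h'⟩
        refine ⟨g' * g, K.mul_mem hg' hg, ?_⟩
        rw [← h', ← h, Sym2.map_map]
        rfl }

/-- the graph of a class of edges -/
def clG (K : Subgroup (Equiv.Perm V)) (j : Quotient (st K)) : SimpleGraph V where
  Adj x y := ∃ h : ¬ (s(x, y) : Sym2 V).IsDiag, (⟦⟨s(x, y), h⟩⟧ : Quotient (st K)) = j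
  symm := ⟨by
    rintro x y ⟨h, h'⟩
    have : (s(y, x) : Sym2 V) = s(x, y) := Sym2.eq_swap
    refine ⟨by rwa [this], ?_⟩
    rw [← h']
    congr 1
    exact Subtype.ext this⟩
  loopless := ⟨by
    rintro x ⟨h, _⟩
    exact h rfl⟩

theorem clG_map (K : Subgroup (Equiv.Perm V)) (j : Quotient (st K)) (g : Equiv.Perm V) (hg : g ∈ K)
    (u v : V) (h : (clG K j).Adj u v) : (clG K j).Adj (g u) (g v) := by
  obtain ⟨h1, h2⟩ := h
  have h3 : ¬ (s(g u, g v) : Sym2 V).IsDiag := by
    rw [Sym2.mk_isDiag_iff] at h1 ⊢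
    exact fun h => h1 (g.injective h)
  refine ⟨h3, ?_⟩
  rw [← h2]
  symm
  apply Quotient.sound
  exact ⟨g, hg, by simp⟩

theorem clG_trans (K : Subgroup (Equiv.Perm V)) (j : Quotient (st K)) (u v u' v' : V)
    (h : (clG K j).Adj u v) (h' : (clG K j).Adj u' v') :
    ∃ g ∈ K, (g u = u' ∧ g v = v') ∨ (g u = v' ∧ g v = u') := by
  obtain ⟨h1, h2⟩ := h
  obtain ⟨h1', h2'⟩ := h'
  have h3 := Quotient.exact (h2.trans h2'.symm)
  obtain ⟨g, hg, h4⟩ := h3
  refine ⟨g, hg, ?_⟩
  simp only [Sym2.map_mk] at h4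
  rw [Sym2.eq_iff] at h4
  exact h4

end

open Classical in
/-- **Orbit criterion.** If a property fails for the graph without edges and holds for all orbit
graphs of a group which is generated by an elementary abelian normal `p`-subgroup and one further
element, then every decision tree has depth at least `n.choose 2`. -/
theorem of_orbits {n q : ℕ} {P : SimpleGraph (Fin n) → Prop} (hP : GP n q P) {V : Type} [Fintype V]
    [DecidableEq V] (hV : Fintype.card V = n) (p : ℕ) [Fact p.Prime] {ι : Type} [Fintype ι]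
    (a : ι → Equiv.Perm V) (c : Equiv.Perm V)
    (hcomm : ∀ i j, a i * a j = a j * a i) (hap : ∀ i, a i ^ p = 1)
    (hca : ∀ i, c⁻¹ * a i * c ∈ Subgroup.closure (Set.range a)) (hn : 2 ≤ n)
    (h0 : ¬ PV P V ⊥)
    (h1 : ∀ u v (h : u ≠ v), PV P V (orbG (Subgroup.closure (insert c (Set.range a))) u v h)) :
    n.choose 2 ≤ q := by
  by_contra hq
  push Not at hq
  set K := Subgroup.closure (insert c (Set.range a)) with hK
  have : Fintype (Quotient (st K)) := Fintype.ofFinite _
  set m := Fintype.card (Quotient (st K)) with hm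
  set φ : Quotient (st K) ≃ Fin m := Fintype.equivFin _ with hφ
  have hcK : c ∈ K := Subgroup.subset_closure (Set.mem_insert _ _)
  have haK : ∀ i, a i ∈ K := fun i => Subgroup.subset_closure (Set.mem_insert_of_mem _ ⟨i, rfl⟩)
  set R : Fin m → SimpleGraph V := fun j => clG K (φ.symm j) with hR
  have hcardE : n.choose 2 ≤ ∑ j, Nat.card (R j).edgeSet := by
    have h2 : n.choose 2 = Nat.card {e : Sym2 V // ¬ e.IsDiag} := by
      rw [Nat.card_eq_fintype_card, Sym2.card_subtype_not_diag, hV]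
    have h3 : ∑ j, Nat.card (R j).edgeSet = Nat.card (Σ j, (R j).edgeSet) := by
      rw [Nat.card_sigma]
    rw [h2, h3]
    let F : {e : Sym2 V // ¬ e.IsDiag} → Σ j, (R j).edgeSet := fun e =>
      ⟨φ ⟦e⟧, ⟨e.1, by
        obtain ⟨e, he⟩ := e
        induction e using Sym2.ind with
        | _ x y =>
          rw [SimpleGraph.mem_edgeSet]
          refine ⟨he, ?_⟩
          simp⟩⟩
    refine Nat.card_le_card_of_injective F ?_
    intro e e' h
    apply Subtype.ext
    have := congrArg (fun z : (Σ j, (R j).edgeSet) => (z.2 : Sym2 V)) h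
    exact this
  have key := Pool.Agent.H119R2.Kp.rel hP hV p a c hcomm hap hca (m := m) ⊥ R
    (fun i u v h => h.elim) (fun u v h => h.elim)
    (fun j i u v h => clG_map K _ _ (haK i) u v h) (fun j u v h => clG_map K _ _ hcK u v h)
    (by
      intro i j hij
      rw [disjoint_iff_inf_le]
      rintro u v ⟨⟨_, h2⟩, ⟨_, h3⟩⟩
      exact hij (φ.symm.injective (h2.symm.trans h3)))
    (fun i => disjoint_bot_left)
    (by
      intro j
      obtain ⟨⟨e, he⟩, hj⟩ := Quotient.exists_rep (φ.symm j)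
      induction e using Sym2.ind with
      | _ x y => exact ⟨x, y, he, hj⟩)
    (fun j u v u' v' h h' => clG_trans K _ u v u' v' h h')
    (lt_of_lt_of_le hq hcardE)
  have hmpos : 0 < m := by
    rw [hm, Fintype.card_pos_iff]
    have h2 : Nontrivial V := by
      rw [← Fintype.one_lt_card_iff_nontrivial]
      omega
    obtain ⟨x, y, hxy⟩ := h2
    exact ⟨⟦⟨s(x, y), by rwa [Sym2.mk_isDiag_iff]⟩⟧⟩
  have hne : (univ : Finset (Fin m)).Nonempty := ⟨⟨0, hmpos⟩, mem_univ _⟩
  have hsum : ∑ I : Finset (Fin m), (-1 : ℤ) ^ I.card = 0 := by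
    have := Finset.sum_powerset_neg_one_pow_card (x := (univ : Finset (Fin m)))
    rw [if_neg hne.ne_empty, Finset.powerset_univ] at this
    exact this
  have hI : ∀ I : Finset (Fin m), I.Nonempty → PV P V (⊥ ⊔ ⨆ j ∈ I, R j) := by
    rintro I ⟨j, hj⟩
    obtain ⟨⟨e, he⟩, hj'⟩ := Quotient.exists_rep (φ.symm j)
    revert he
    refine Sym2.ind (fun x y => ?_) e
    intro he hj'
    have hxy : x ≠ y := by rwa [Sym2.mk_isDiag_iff] at he
    refine Pool.Agent.H119R2.Kp.RelAux.PV_mono hP ?_ (h1 x y hxy)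
    have hle : R j ≤ ⊥ ⊔ ⨆ j ∈ I, R j := by
      refine le_trans ?_ le_sup_right
      exact le_iSup₂_of_le j hj le_rfl
    refine le_trans ?_ hle
    rintro u v ⟨g, hg, h | h⟩
    · have := clG_map K (φ.symm j) g hg x y ⟨he, hj'⟩
      rw [h.1, h.2] at this
      exact this
    · have := clG_map K (φ.symm j) g hg x y ⟨he, hj'⟩
      rw [h.1, h.2] at this
      exact this.symm
  have h2 : ∑ I : Finset (Fin m), (-1 : ℤ) ^ I.card *
      (if PV P V (⊥ ⊔ ⨆ j ∈ I, R j) then 1 else 0) =
      ∑ I : Finset (Fin m), ((-1 : ℤ) ^ I.card - if I = ∅ then 1 else 0) := by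
    refine Finset.sum_congr rfl fun I _ => ?_
    rcases I.eq_empty_or_nonempty with h | h
    · subst h
      have h3 : (⊥ ⊔ ⨆ j ∈ (∅ : Finset (Fin m)), R j) = ⊥ := by simp
      rw [h3, if_neg h0, if_pos rfl]
      simp
    · rw [if_pos (hI I h), if_neg h.ne_empty]
      ring
  rw [h2, Finset.sum_sub_distrib, hsum, Finset.sum_ite_eq' univ (∅ : Finset (Fin m))] at key
  simp at key

end Pool.Agent.Y46.Kc
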