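import Pool.Agent.Y46.Kc.Defs
import Pool.Agent.H119R2.Kp.Rel

set_option autoImplicit false
set_option linter.unusedSectionVars false
set_option linter.unusedSimpArgs false

/-!
# The relation for a group of translations of the blocks and a rotation of the blocks
-/

namespace Pool.Agent.Y46.Kc

open Finset
open Pool.Agent.H119R2.Kp (GP PV)

variable {r k : ℕ} {W : Type} [AddCommGroup W]

/-- translation of the blocks by a function -/
def T (f : ZMod k → W) : Equiv.Perm (VV r k W) :=
  Equiv.sumCongr (Equiv.refl _)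
    { toFun := fun u => (u.1, u.2 + f u.1)
      invFun := fun u => (u.1, u.2 - f u.1)
      left_inv := fun u => by simp
      right_inv := fun u => by simp }

theorem T_inl (f : ZMod k → W) (a : Fin r) : T (r := r) f (.inl a) = .inl a := rfl

theorem T_inr (f : ZMod k → W) (u : ZMod k × W) :
    T (r := r) f (.inr u) = .inr (u.1, u.2 + f u.1) := rfl

theorem T_add (f g : ZMod k → W) : T (r := r) (f + g) = T f * T g := by
  ext u
  rcases u with u | u
  · rfl
  · change _ = T f (T g (.inr u))
    rw [T_inr, T_inr, T_inr]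
    simp only [Pi.add_apply]
    rw [add_comm (f u.1), add_assoc]

theorem T_zero : T (r := r) (0 : ZMod k → W) = 1 := by
  ext u
  rcases u with u | u
  · rfl
  · rw [T_inr]
    simp

theorem T_nsmul (n : ℕ) (f : ZMod k → W) : T (r := r) (n • f) = T f ^ n := by
  induction n with
  | zero => rw [zero_smul, T_zero, pow_zero]
  | succ n ih => rw [succ_nsmul, T_add, ih, pow_succ]

/-- rotation of the blocks -/
def C (r k : ℕ) (W : Type) : Equiv.Perm (VV r k W) :=
  Equiv.sumCongr (Equiv.refl _) (Equiv.prodCongr (Equiv.addRight (1 : ZMod k)) (Equiv.refl _))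

theorem C_inl (a : Fin r) : C r k W (.inl a) = .inl a := rfl

theorem C_inr (u : ZMod k × W) : C r k W (.inr u) = .inr (u.1 + 1, u.2) := rfl

theorem C_pow_inr (n : ℕ) (u : ZMod k × W) : (C r k W ^ n) (.inr u) = .inr (u.1 + n, u.2) := by
  induction n with
  | zero => simp
  | succ n ih =>
    rw [pow_succ', Equiv.Perm.mul_apply, ih, C_inr]
    push_cast
    rw [add_assoc]

theorem conj_T (f : ZMod k → W) : (C r k W)⁻¹ * T f * C r k W = T (fun i => f (i + 1)) := by
  rw [mul_assoc, inv_mul_eq_iff_eq_mul]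
  ext u
  rcases u with u | u
  · rfl
  · rw [Equiv.Perm.mul_apply, Equiv.Perm.mul_apply, C_inr, T_inr, T_inr, C_inr]

theorem GG_T {A : SimpleGraph (Fin r)} {S : Set (Fin r)} {X : Set W} {Y : Set (ZMod k)}
    (f : ZMod k → W) (u v : VV r k W) (h : (GG A S X Y).Adj u v) :
    (GG A S X Y).Adj (T f u) (T f v) := by
  rcases u with u | u <;> rcases v with v | v
  · exact h
  · exact h
  · exact h
  · rcases h with ⟨h1, h2, h3⟩ | ⟨h1, h2⟩
    · refine Or.inl ⟨h1, ?_, ?_⟩
      · change u.2 + f u.1 ≠ v.2 + f v.1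
        rw [h1]
        exact fun h => h2 (add_right_cancel h)
      · change (v.2 + f v.1 - (u.2 + f u.1) ∈ X ∨ u.2 + f u.1 - (v.2 + f v.1) ∈ X)
        rw [h1, add_sub_add_right_eq_sub, add_sub_add_right_eq_sub]
        exact h3
    · exact Or.inr ⟨h1, h2⟩

theorem GG_C {A : SimpleGraph (Fin r)} {S : Set (Fin r)} {X : Set W} {Y : Set (ZMod k)}
    (u v : VV r k W) (h : (GG A S X Y).Adj u v) :
    (GG A S X Y).Adj (C r k W u) (C r k W v) := by
  rcases u with u | u <;> rcases v with v | v
  · exact h
  · exact h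
  · exact h
  · rcases h with ⟨h1, h2, h3⟩ | ⟨h1, h2⟩
    · refine Or.inl ⟨?_, h2, h3⟩
      change u.1 + 1 = v.1 + 1
      rw [h1]
    · refine Or.inr ⟨?_, ?_⟩
      · change u.1 + 1 ≠ v.1 + 1
        exact fun h => h1 (add_right_cancel h)
      · change (v.1 + 1 - (u.1 + 1) ∈ Y ∨ u.1 + 1 - (v.1 + 1) ∈ Y)
        rw [add_sub_add_right_eq_sub, add_sub_add_right_eq_sub]
        exact h2

theorem RR_T (t : ZMod k) (f : ZMod k → W) (u v : VV r k W) (h : (RR t).Adj u v) :
    (RR t).Adj (T f u) (T f v) := by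
  rcases u with u | u <;> rcases v with v | v <;> exact h

theorem RR_C (t : ZMod k) (u v : VV r k W) (h : (RR t).Adj u v) :
    (RR t).Adj (C r k W u) (C r k W v) := by
  rcases u with u | u <;> rcases v with v | v
  · exact h
  · exact h
  · exact h
  · refine ⟨?_, ?_⟩
    · change u.1 + 1 ≠ v.1 + 1
      exact fun h' => h.1 (add_right_cancel h')
    · change (v.1 + 1 - (u.1 + 1) = t ∨ u.1 + 1 - (v.1 + 1) = t)
      rw [add_sub_add_right_eq_sub, add_sub_add_right_eq_sub]
      exact h.2

/-- the group generated by the rotation and the translations acts transitively on the ordered pairs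
of vertices in blocks of a given difference -/
theorem trans [NeZero k] (K : Subgroup (Equiv.Perm (VV r k W))) (hC : C r k W ∈ K)
    (hT : ∀ f : ZMod k → W, T f ∈ K) (u v u' v' : ZMod k × W) (h : u.1 ≠ v.1)
    (h1 : v.1 - u.1 = v'.1 - u'.1) :
    ∃ g ∈ K, g (.inr u) = .inr u' ∧ g (.inr v) = .inr v' := by
  classical
  obtain ⟨n, hn⟩ : ∃ n : ℕ, (n : ZMod k) = u'.1 - u.1 := ⟨(u'.1 - u.1).val, ZMod.natCast_zmod_val _⟩
  have hv : v.1 + n = v'.1 := by
    rw [hn]
    have : v.1 = v'.1 - u'.1 + u.1 := by rw [← h1]; ring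
    rw [this]
    ring
  have hu : u.1 + n = u'.1 := by
    rw [hn]
    ring
  have hne : v'.1 ≠ u'.1 := by
    rw [← hv, ← hu]
    exact fun h' => h (add_right_cancel h').symm
  refine ⟨T (fun i => if i = u'.1 then u'.2 - u.2 else v'.2 - v.2) * C r k W ^ n,
    K.mul_mem (hT _) (K.pow_mem hC n), ?_, ?_⟩
  · rw [Equiv.Perm.mul_apply, C_pow_inr, T_inr]
    simp [hu]
  · rw [Equiv.Perm.mul_apply, C_pow_inr, T_inr]
    simp [hv, hne]

section count

variable {m : ℕ}

theorem RR_disj {t : Fin m → ZMod k} (ht : Half t) (i j : Fin m) (hij : i ≠ j) :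
    Disjoint (RR (r := r) (W := W) (t i)) (RR (t j)) := by
  rw [disjoint_iff_inf_le]
  intro u v h
  obtain ⟨h1, h2⟩ := h
  rcases u with u | u <;> rcases v with v | v
  · exact h1
  · exact h1
  · exact h1
  · exfalso
    apply hij
    rcases h1.2 with h3 | h3 <;> rcases h2.2 with h4 | h4
    · exact ht.inj i j (Or.inl (h3.symm.trans h4))
    · refine ht.inj i j (Or.inr ?_)
      rw [← h3, ← h4]
      ring
    · refine ht.inj i j (Or.inr ?_)
      rw [← h3, ← h4]
      ring
    · exact ht.inj i j (Or.inl (h3.symm.trans h4))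

/-- the number of edges between different blocks -/
theorem card_edges [NeZero k] [Fintype W] {t : Fin m → ZMod k} (ht : Half t) :
    k.choose 2 * Fintype.card W ^ 2 ≤ ∑ j, Nat.card (RR (r := r) (W := W) (t j)).edgeSet := by
  classical
  have hsum : ∑ j, Nat.card (RR (r := r) (W := W) (t j)).edgeSet =
      Nat.card (Σ j, (RR (r := r) (W := W) (t j)).edgeSet) := by
    rw [Nat.card_sigma]
  rw [hsum]
  -- pairs of different blocks
  have hpairs : k.choose 2 = Nat.card {e : Sym2 (ZMod k) // ¬ e.IsDiag} := by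
    rw [Nat.card_eq_fintype_card, Sym2.card_subtype_not_diag, ZMod.card]
  have key : ∀ e : {e : Sym2 (ZMod k) // ¬ e.IsDiag}, ∃ p : ZMod k × ZMod k, s(p.1, p.2) = e.1 := by
    rintro ⟨e, he⟩
    induction e using Sym2.ind with
    | _ a b => exact ⟨(a, b), rfl⟩
  choose p hp using key
  have hpne : ∀ e, (p e).1 ≠ (p e).2 := by
    intro e h
    apply e.2
    rw [← hp e, h]
    rfl
  have hj : ∀ e, ∃ j, (p e).2 - (p e).1 = t j ∨ (p e).1 - (p e).2 = t j := by
    intro e
    obtain ⟨j, hj⟩ := ht.surj ((p e).2 - (p e).1) (sub_ne_zero.2 (hpne e).symm)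
    refine ⟨j, hj.imp id fun h => ?_⟩
    rw [← neg_sub, h, neg_neg]
  choose J hJ using hj
  let F : {e : Sym2 (ZMod k) // ¬ e.IsDiag} × (W × W) →
      Σ j, (RR (r := r) (W := W) (t j)).edgeSet := fun x =>
    ⟨J x.1, ⟨s(.inr ((p x.1).1, x.2.1), .inr ((p x.1).2, x.2.2)), by
      rw [SimpleGraph.mem_edgeSet]
      exact ⟨hpne x.1, hJ x.1⟩⟩⟩
  have hF : Function.Injective F := by
    rintro ⟨e, w⟩ ⟨e', w'⟩ h
    have h2 : (s(Sum.inr ((p e).1, w.1), Sum.inr ((p e).2, w.2)) : Sym2 (VV r k W)) =
        s(Sum.inr ((p e').1, w'.1), Sum.inr ((p e').2, w'.2)) := by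
      have := congrArg (fun z : (Σ j, (RR (r := r) (W := W) (t j)).edgeSet) => z.2.1) h
      exact this
    have he : e = e' := by
      apply Subtype.ext
      rw [← hp e, ← hp e', Sym2.eq_iff]
      rw [Sym2.eq_iff] at h2
      rcases h2 with ⟨h3, h4⟩ | ⟨h3, h4⟩
      · rw [Sum.inr.injEq, Prod.mk.injEq] at h3 h4
        exact Or.inl ⟨h3.1, h4.1⟩
      · rw [Sum.inr.injEq, Prod.mk.injEq] at h3 h4
        exact Or.inr ⟨h3.1, h4.1⟩
    subst he
    rw [Sym2.eq_iff] at h2
    rcases h2 with ⟨h3, h4⟩ | ⟨h3, h4⟩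
    · rw [Sum.inr.injEq, Prod.mk.injEq] at h3 h4
      rw [Prod.mk.injEq]
      exact ⟨rfl, Prod.ext h3.2 h4.2⟩
    · rw [Sum.inr.injEq, Prod.mk.injEq] at h3
      exact absurd h3.1 (hpne e)
  have h3 := Nat.card_le_card_of_injective F hF
  rw [Nat.card_prod, Nat.card_prod, ← hpairs, Nat.card_eq_fintype_card] at h3
  rw [pow_two]
  exact h3

end count

open Classical in
/-- **The relation.** -/
theorem relGG {n q : ℕ} {P : SimpleGraph (Fin n) → Prop} (hP : GP n q P) (p a : ℕ) [Fact p.Prime]
    [NeZero k] (hn : r + k * p ^ a = n) {m : ℕ} (t : Fin m → ZMod k) (ht : Half t)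
    (hq : q < k.choose 2 * (p ^ a) ^ 2) (A : SimpleGraph (Fin r)) (S : Set (Fin r))
    (X : Set (Fin a → ZMod p)) :
    ∑ I : Finset (Fin m), (-1 : ℤ) ^ I.card *
      (if PV P (VV r k (Fin a → ZMod p)) (GG A S X {z | ∃ j ∈ I, z = t j}) then 1 else 0) = 0 := by
  have hcard : Fintype.card (VV r k (Fin a → ZMod p)) = n := by
    rw [← hn]
    simp [ZMod.card]
  have hcardW : Fintype.card (Fin a → ZMod p) = p ^ a := by
    simp [ZMod.card]
  set gen : ZMod k × Fin a → Equiv.Perm (VV r k (Fin a → ZMod p)) :=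
    fun i => T (Pi.single i.1 (Pi.single i.2 1)) with hgen
  have hTmem : ∀ (K : Subgroup (Equiv.Perm (VV r k (Fin a → ZMod p)))), (∀ i, gen i ∈ K) →
      ∀ f : ZMod k → Fin a → ZMod p, T f ∈ K := by
    intro K hK f
    have hzero : ∀ s : Finset (ZMod k × Fin a),
        T (r := r) (∑ i ∈ s, (f i.1 i.2).val • (Pi.single i.1 (Pi.single i.2 1) :
          ZMod k → Fin a → ZMod p)) ∈ K := by
      intro s
      induction s using Finset.induction_on with
      | empty =>
        rw [Finset.sum_empty, T_zero]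
        exact K.one_mem
      | insert i s hi ih =>
        rw [Finset.sum_insert hi, T_add, T_nsmul]
        exact K.mul_mem (K.pow_mem (hK i) _) ih
    have hf : f = ∑ i : ZMod k × Fin a, (f i.1 i.2).val • (Pi.single i.1 (Pi.single i.2 1) :
          ZMod k → Fin a → ZMod p) := by
      ext x y
      rw [Finset.sum_apply, Finset.sum_apply, Finset.sum_eq_single (x, y)]
      · simp
      · rintro ⟨x', y'⟩ _ hne
        simp only [Pi.smul_apply]
        by_cases hx : x' = x
        · subst hx
          have hy : y' ≠ y := by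
            rintro rfl
            exact hne rfl
          simp [Pi.single_apply, hy.symm]
        · simp [Pi.single_apply, Ne.symm hx]
      · intro h
        exact absurd (mem_univ _) h
    rw [hf]
    exact hzero _
  have key := Pool.Agent.H119R2.Kp.rel hP hcard p (ι := ZMod k × Fin a) gen (C r k _)
    (by
      intro i j
      rw [hgen]
      simp only
      rw [← T_add, ← T_add, add_comm])
    (by
      intro i
      rw [hgen]
      simp only
      rw [← T_nsmul]
      have : p • (Pi.single i.1 (Pi.single i.2 1) : ZMod k → Fin a → ZMod p) = 0 := by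
        ext x y
        simp
      rw [this, T_zero])
    (by
      intro i
      rw [hgen]
      simp only
      rw [conj_T]
      apply Subgroup.subset_closure
      refine ⟨(i.1 - 1, i.2), ?_⟩
      simp only
      congr 1
      ext x y
      by_cases hx : x = i.1 - 1
      · subst hx
        simp
      · have hx' : x + 1 ≠ i.1 := fun h => hx (by rw [← h]; ring)
        simp [Pi.single_apply, hx, hx'])
    (m := m) (GG A S X ∅) (fun j => RR (t j))
    (fun i u v h => GG_T _ u v h) (fun u v h => GG_C u v h)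
    (fun j i u v h => RR_T _ _ u v h) (fun j u v h => RR_C _ u v h)
    (fun i j hij => RR_disj ht i j hij)
    (by
      intro i
      rw [disjoint_iff_inf_le]
      intro u v h
      obtain ⟨h1, h2⟩ := h
      rcases u with u | u <;> rcases v with v | v
      · exact h2
      · exact h2
      · exact h2
      · rcases h1 with h1 | ⟨_, h1 | h1⟩
        · exact h2.1 h1.1
        · exact h1
        · exact h1)
    (by
      intro j
      refine ⟨.inr (0, 0), .inr (t j, 0), ?_, ?_⟩
      · change (0 : ZMod k) ≠ t j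
        exact (ht.ne j).symm
      · left
        change t j - 0 = t j
        rw [sub_zero])
    (by
      intro j u v u' v' huv huv'
      have hK1 : C r k (Fin a → ZMod p) ∈ Subgroup.closure (insert (C r k _) (Set.range gen)) :=
        Subgroup.subset_closure (Set.mem_insert _ _)
      have hK2 : ∀ f : ZMod k → Fin a → ZMod p,
          T f ∈ Subgroup.closure (insert (C r k _) (Set.range gen)) := by
        apply hTmem
        intro i
        exact Subgroup.subset_closure (Set.mem_insert_of_mem _ ⟨i, rfl⟩)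
      rcases u with u | u <;> rcases v with v | v
      · exact huv.elim
      · exact huv.elim
      · exact huv.elim
      · rcases u' with u' | u' <;> rcases v' with v' | v'
        · exact huv'.elim
        · exact huv'.elim
        · exact huv'.elim
        · obtain ⟨h1, h2⟩ := huv
          obtain ⟨h1', h2'⟩ := huv'
          have hcase : v.1 - u.1 = v'.1 - u'.1 ∨ v.1 - u.1 = u'.1 - v'.1 := by
            rcases h2 with h2 | h2 <;> rcases h2' with h2' | h2'
            · exact Or.inl (h2.trans h2'.symm)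
            · exact Or.inr (h2.trans h2'.symm)
            · right
              rw [← neg_sub, h2, ← h2', neg_sub]
            · left
              rw [← neg_sub, h2, ← h2', neg_sub]
          rcases hcase with h3 | h3
          · obtain ⟨g, hg, hg1, hg2⟩ := trans _ hK1 hK2 u v u' v' h1 h3
            exact ⟨g, hg, Or.inl ⟨hg1, hg2⟩⟩
          · obtain ⟨g, hg, hg1, hg2⟩ := trans _ hK1 hK2 u v v' u' h1 h3
            exact ⟨g, hg, Or.inr ⟨hg1, hg2⟩⟩)
    (lt_of_lt_of_le (by rw [hcardW] at *; exact hq) (card_edges ht))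
  refine Eq.trans (Finset.sum_congr rfl fun I _ => ?_) key
  rw [sup_RR]

end Pool.Agent.Y46.Kc
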