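import Pool.Agent.Y46.Kc.Orb
import Pool.Agent.Y46.Kc.Two

set_option autoImplicit false

/-!
# Counting modulo a prime; Oliver groups with an `l`-group on the top
-/

namespace Pool.Agent.Y46.Kc

open Finset
open Pool.Agent.H119R2.Kp (GP PV)

theorem card_mod {X : Type} [Fintype X] [DecidableEq X] (σ : Equiv.Perm X) (l N : ℕ)
    [Fact l.Prime] (hσ : ∀ x, (σ ^ (l ^ N)) x = x) (p : X → Prop) [DecidablePred p]
    (hp : ∀ x, p x → p (σ x)) :
    (l : ℤ) ∣ ((univ.filter p).card : ℤ) - ((univ.filter fun x => p x ∧ σ x = x).card : ℤ) := by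
  classical
  let g : Function.End {x // p x} := fun x => ⟨σ x.1, hp x.1 x.2⟩
  have hg : ∀ (n : ℕ) (x : {x // p x}), ((g ^ n) x).1 = (σ ^ n) x.1 := by
    intro n
    induction n with
    | zero => intro x; rfl
    | succ n ih =>
      intro x
      rw [pow_succ', pow_succ']
      change σ ((g ^ n) x).1 = σ ((σ ^ n) x.1)
      rw [ih]
  have h1 : g ^ (l ^ N) = 1 := by
    funext x
    apply Subtype.ext
    rw [hg, hσ]
    rfl
  have h2 := Equiv.Perm.card_fixedPoints_modEq h1
  have h3 : Fintype.card {x // p x} = (univ.filter p).card := Fintype.card_subtype p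
  have h4 : Fintype.card g.fixedPoints = (univ.filter fun x => p x ∧ σ x = x).card := by
    rw [← Fintype.card_subtype]
    refine Fintype.card_congr
      { toFun := fun x => ⟨x.1.1, x.1.2, congrArg Subtype.val x.2⟩
        invFun := fun x => ⟨⟨x.1, x.2.1⟩, Subtype.ext x.2.2⟩
        left_inv := fun x => rfl
        right_inv := fun x => rfl }
  rw [h3, h4] at h2
  have h5 := (Nat.modEq_iff_dvd.1 h2.symm)
  exact h5

/-- sums of invariant functions modulo `l` -/
theorem sum_fixed {X : Type} [Fintype X] [DecidableEq X] (σ : Equiv.Perm X) (l N : ℕ)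
    [Fact l.Prime] (hσ : ∀ x, (σ ^ (l ^ N)) x = x) (f : X → ℤ) (hf : ∀ x, f (σ x) = f x) :
    (l : ℤ) ∣ ∑ x, f x - ∑ x ∈ univ.filter (fun x => σ x = x), f x := by
  classical
  have h1 : ∑ x, f x = ∑ c ∈ univ.image f, ((univ.filter fun x => f x = c).card : ℤ) * c := by
    rw [← Finset.sum_fiberwise_of_maps_to (g := f) (t := univ.image f)
      (fun x _ => mem_image_of_mem _ (mem_univ x))]
    refine Finset.sum_congr rfl fun c _ => ?_
    rw [Finset.sum_congr rfl (fun x hx => (mem_filter.1 hx).2), Finset.sum_const, nsmul_eq_mul]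
  have h2 : ∑ x ∈ univ.filter (fun x => σ x = x), f x =
      ∑ c ∈ univ.image f, ((univ.filter fun x => f x = c ∧ σ x = x).card : ℤ) * c := by
    rw [← Finset.sum_fiberwise_of_maps_to (g := f) (t := univ.image f)
      (fun x _ => mem_image_of_mem _ (mem_univ x))]
    refine Finset.sum_congr rfl fun c _ => ?_
    rw [Finset.sum_congr rfl (fun x hx => (mem_filter.1 hx).2), Finset.sum_const, nsmul_eq_mul]
    congr 2
    rw [Finset.filter_filter]
    congr 1
    ext x
    simp [and_comm]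
  rw [h1, h2, ← Finset.sum_sub_distrib]
  refine Finset.dvd_sum fun c _ => ?_
  rw [← sub_mul]
  exact Dvd.dvd.mul_right (card_mod σ l N hσ (fun x => f x = c) (fun x hx => (hf x).trans hx)) c

section

variable {V : Type} [DecidableEq V]

open Pool.Agent.H98R2.Ev (ep EV)

/-- the permutation of the orbits induced by an element which normalises `K` -/
def piQ (K : Subgroup (Equiv.Perm V)) (μ : Equiv.Perm V)
    (h : ∀ g, g ∈ K ↔ μ * g * μ⁻¹ ∈ K) : Equiv.Perm (Quotient (st K)) :=
  Quotient.congr (ep μ) (by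
    intro e e'
    constructor
    · rintro ⟨g, hg, h1⟩
      refine ⟨μ * g * μ⁻¹, (h g).1 hg, ?_⟩
      change Sym2.map (μ * g * μ⁻¹) (Sym2.map μ e.1) = Sym2.map μ e'.1
      rw [← h1, Sym2.map_map, Sym2.map_map]
      congr 1
      funext x
      simp
    · rintro ⟨g, hg, h1⟩
      refine ⟨μ⁻¹ * g * μ, ?_, ?_⟩
      · rw [h]
        have : μ * (μ⁻¹ * g * μ) * μ⁻¹ = g := by group
        rw [this]
        exact hg
      · have h2 : Sym2.map g (Sym2.map μ e.1) = Sym2.map μ e'.1 := h1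
        have h3 : Sym2.map (⇑(μ⁻¹ : Equiv.Perm V)) (Sym2.map g (Sym2.map μ e.1)) =
            Sym2.map (⇑(μ⁻¹ : Equiv.Perm V)) (Sym2.map μ e'.1) := by
          rw [h2]
        rw [Sym2.map_map, Sym2.map_map, Sym2.map_map] at h3
        have h4 : (⇑(μ⁻¹ : Equiv.Perm V) ∘ ⇑μ) = id := by
          funext x
          simp
        rw [h4, Sym2.map_id, id_eq] at h3
        rw [← h3]
        rfl)

theorem piQ_mk (K : Subgroup (Equiv.Perm V)) (μ : Equiv.Perm V)
    (h : ∀ g, g ∈ K ↔ μ * g * μ⁻¹ ∈ K) (e : EV V) : piQ K μ h ⟦e⟧ = ⟦ep μ e⟧ := rfl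

theorem piQ_pow (K : Subgroup (Equiv.Perm V)) (μ : Equiv.Perm V)
    (h : ∀ g, g ∈ K ↔ μ * g * μ⁻¹ ∈ K) (n : ℕ) (e : EV V) :
    (piQ K μ h ^ n) ⟦e⟧ = ⟦ep (μ ^ n) e⟧ := by
  induction n with
  | zero =>
    rw [pow_zero, pow_zero, Pool.Agent.H98R2.Ev.ep_one]
    rfl
  | succ n ih =>
    rw [pow_succ', Equiv.Perm.mul_apply, ih, piQ_mk, pow_succ', Pool.Agent.H98R2.Ev.ep_mul]
    rfl

theorem clG_pi (K : Subgroup (Equiv.Perm V)) (μ : Equiv.Perm V)
    (h : ∀ g, g ∈ K ↔ μ * g * μ⁻¹ ∈ K) (j : Quotient (st K)) (u v : V) :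
    (clG K (piQ K μ h j)).Adj (μ u) (μ v) ↔ (clG K j).Adj u v := by
  constructor
  · rintro ⟨h1, h2⟩
    have h3 : ¬ (s(u, v) : Sym2 V).IsDiag := by
      rw [Sym2.mk_isDiag_iff] at h1 ⊢
      exact fun h => h1 (congrArg μ h)
    refine ⟨h3, ?_⟩
    apply (piQ K μ h).injective
    rw [← h2, piQ_mk]
    rfl
  · rintro ⟨h1, h2⟩
    have h3 : ¬ (s(μ u, μ v) : Sym2 V).IsDiag := by
      rw [Sym2.mk_isDiag_iff] at h1 ⊢
      exact fun h => h1 (μ.injective h)
    refine ⟨h3, ?_⟩
    rw [← h2, piQ_mk]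
    rfl

end

theorem fc_pow {α : Type} (e : Equiv.Perm α) (n : ℕ) :
    (e.finsetCongr : Equiv.Perm (Finset α)) ^ n = (e ^ n).finsetCongr := by
  induction n with
  | zero =>
    ext s a
    rw [pow_zero, pow_zero, Equiv.finsetCongr_apply, Finset.mem_map_equiv]
    exact Iff.rfl
  | succ n ih =>
    rw [pow_succ', ih, pow_succ']
    ext s a
    rw [Equiv.Perm.mul_apply, Equiv.finsetCongr_apply, Equiv.finsetCongr_apply,
      Equiv.finsetCongr_apply, Finset.mem_map_equiv, Finset.mem_map_equiv, Finset.mem_map_equiv]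
    exact Iff.rfl

open Classical in
/-- **Orbit criterion, with an `l`-group on the top.** -/
theorem of_orbits_top {n q : ℕ} {P : SimpleGraph (Fin n) → Prop} (hP : GP n q P) {V : Type}
    [Fintype V] [DecidableEq V] (hV : Fintype.card V = n) (p : ℕ) [Fact p.Prime] {ι : Type}
    [Fintype ι] (a : ι → Equiv.Perm V) (c μ : Equiv.Perm V)
    (hcomm : ∀ i j, a i * a j = a j * a i) (hap : ∀ i, a i ^ p = 1)
    (hca : ∀ i, c⁻¹ * a i * c ∈ Subgroup.closure (Set.range a))
    (hμ : ∀ g, g ∈ Subgroup.closure (insert c (Set.range a)) ↔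
      μ * g * μ⁻¹ ∈ Subgroup.closure (insert c (Set.range a))) (l N : ℕ) [Fact l.Prime]
    (hμN : ∀ u v, u ≠ v → ∃ g ∈ Subgroup.closure (insert c (Set.range a)),
      (g u = (μ ^ (l ^ N)) u ∧ g v = (μ ^ (l ^ N)) v) ∨
      (g u = (μ ^ (l ^ N)) v ∧ g v = (μ ^ (l ^ N)) u))
    (hn : 2 ≤ n) (h0 : ¬ PV P V ⊥)
    (h1 : ∀ u v (h : u ≠ v),
      PV P V (orbG (Subgroup.closure (insert μ (insert c (Set.range a)))) u v h)) :
    n.choose 2 ≤ q := by
  by_contra hq
  push Not at hq
  set K := Subgroup.closure (insert c (Set.range a)) with hK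
  set Γ := Subgroup.closure (insert μ (insert c (Set.range a))) with hΓ
  have : Fintype (Quotient (st K)) := Fintype.ofFinite _
  set m := Fintype.card (Quotient (st K)) with hm
  set φ : Quotient (st K) ≃ Fin m := Fintype.equivFin _ with hφ
  have hcK : c ∈ K := Subgroup.subset_closure (Set.mem_insert _ _)
  have haK : ∀ i, a i ∈ K := fun i => Subgroup.subset_closure (Set.mem_insert_of_mem _ ⟨i, rfl⟩)
  set R : Fin m → SimpleGraph V := fun j => clG K (φ.symm j) with hR
  have hcardE : n.choose 2 ≤ ∑ j, Nat.card (R j).edgeSet := by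
    have h2 : n.choose 2 = Nat.card {e : Sym2 V // ¬ e.IsDiag} := by
      rw [Nat.card_eq_fintype_card, Sym2.card_subtype_not_diag, hV]
    have h3 : ∑ j, Nat.card (R j).edgeSet = Nat.card (Σ j, (R j).edgeSet) := by
      rw [Nat.card_sigma]
    rw [h2, h3]
    let F : {e : Sym2 V // ¬ e.IsDiag} → Σ j, (R j).edgeSet := fun e =>
      ⟨φ ⟦e⟧, ⟨e.1, by
        obtain ⟨e, he⟩ := e
        induction e using Sym2.ind with
        | _ x y =>
          rw [SimpleGraph.mem_edgeSet]
          refine ⟨he, ?_⟩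
          simp⟩⟩
    refine Nat.card_le_card_of_injective F ?_
    intro e e' h
    apply Subtype.ext
    have := congrArg (fun z : (Σ j, (R j).edgeSet) => (z.2 : Sym2 V)) h
    exact this
  have key := Pool.Agent.H119R2.Kp.rel hP hV p a c hcomm hap hca (m := m) ⊥ R
    (fun i u v h => h.elim) (fun u v h => h.elim)
    (fun j i u v h => clG_map K _ _ (haK i) u v h) (fun j u v h => clG_map K _ _ hcK u v h)
    (by
      intro i j hij
      rw [disjoint_iff_inf_le]
      rintro u v ⟨⟨_, h2⟩, ⟨_, h3⟩⟩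
      exact hij (φ.symm.injective (h2.symm.trans h3)))
    (fun i => disjoint_bot_left)
    (by
      intro j
      obtain ⟨⟨e, he⟩, hj⟩ := Quotient.exists_rep (φ.symm j)
      induction e using Sym2.ind with
      | _ x y => exact ⟨x, y, he, hj⟩)
    (fun j u v u' v' h h' => clG_trans K _ u v u' v' h h')
    (lt_of_lt_of_le hq hcardE)
  have hmpos : 0 < m := by
    rw [hm, Fintype.card_pos_iff]
    have h2 : Nontrivial V := by
      rw [← Fintype.one_lt_card_iff_nontrivial]
      omega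
    obtain ⟨x, y, hxy⟩ := h2
    exact ⟨⟦⟨s(x, y), by rwa [Sym2.mk_isDiag_iff]⟩⟧⟩
  have hne : (univ : Finset (Fin m)).Nonempty := ⟨⟨0, hmpos⟩, mem_univ _⟩
  have hsum : ∑ I : Finset (Fin m), (-1 : ℤ) ^ I.card = 0 := by
    have := Finset.sum_powerset_neg_one_pow_card (x := (univ : Finset (Fin m)))
    rw [if_neg hne.ne_empty, Finset.powerset_univ] at this
    exact this
  -- the action of `μ`
  set π : Equiv.Perm (Fin m) := φ.symm.trans ((piQ K μ hμ).trans φ) with hπ
  have hRπ : ∀ j u v, (R (π j)).Adj (μ u) (μ v) ↔ (R j).Adj u v := by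
    intro j u v
    have : φ.symm (π j) = piQ K μ hμ (φ.symm j) := by simp [hπ]
    change (clG K (φ.symm (π j))).Adj (μ u) (μ v) ↔ (clG K (φ.symm j)).Adj u v
    rw [this]
    exact clG_pi K μ hμ _ u v
  have hπpow : ∀ (t : ℕ) (j : Fin m), (π ^ t) j = φ ((piQ K μ hμ ^ t) (φ.symm j)) := by
    intro t
    induction t with
    | zero => intro j; simp
    | succ t ih =>
      intro j
      rw [pow_succ', Equiv.Perm.mul_apply, ih, pow_succ', Equiv.Perm.mul_apply]
      simp [hπ]
  have hπN : π ^ (l ^ N) = 1 := by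
    apply Equiv.ext
    intro j
    rw [hπpow]
    obtain ⟨⟨e, he⟩, hj⟩ := Quotient.exists_rep (φ.symm j)
    revert he
    refine Sym2.ind (fun x y => ?_) e
    intro he hj
    have hxy : x ≠ y := by rwa [Sym2.mk_isDiag_iff] at he
    rw [← hj, piQ_pow, Equiv.Perm.one_apply]
    have h2 : (⟦Pool.Agent.H98R2.Ev.ep (μ ^ (l ^ N)) ⟨s(x, y), he⟩⟧ : Quotient (st K)) =
        ⟦⟨s(x, y), he⟩⟧ := by
      symm
      apply Quotient.sound
      obtain ⟨g, hg, h3 | h3⟩ := hμN x y hxy
      · refine ⟨g, hg, ?_⟩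
        change Sym2.map g s(x, y) = Sym2.map (μ ^ (l ^ N)) s(x, y)
        rw [Sym2.map_mk, Sym2.map_mk]
        simp only [h3.1, h3.2]
      · refine ⟨g, hg, ?_⟩
        change Sym2.map g s(x, y) = Sym2.map (μ ^ (l ^ N)) s(x, y)
        rw [Sym2.map_mk, Sym2.map_mk]
        simp only [h3.1, h3.2]
        exact Sym2.eq_swap
    rw [h2, hj]
    simp
  set σ : Equiv.Perm (Finset (Fin m)) := π.finsetCongr with hσ
  have hσN : ∀ I, (σ ^ (l ^ N)) I = I := by
    intro I
    rw [hσ, fc_pow, hπN]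
    ext x
    rw [Equiv.finsetCongr_apply, Finset.mem_map_equiv]
    exact Iff.rfl
  set v : Finset (Fin m) → Prop := fun I => PV P V (⊥ ⊔ ⨆ j ∈ I, R j) with hv
  have hadj : ∀ (I : Finset (Fin m)) (x y : V), (⊥ ⊔ ⨆ j ∈ I, R j).Adj x y ↔
      ∃ j ∈ I, (R j).Adj x y := by
    intro I x y
    rw [bot_sup_eq]
    simp [SimpleGraph.iSup_adj]
  have hvσ : ∀ I, v (σ I) ↔ v I := by
    intro I
    have h2 : ∀ x y, (⊥ ⊔ ⨆ j ∈ σ I, R j).Adj (μ x) (μ y) ↔ (⊥ ⊔ ⨆ j ∈ I, R j).Adj x y := by
      intro x y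
      rw [hadj, hadj]
      constructor
      · rintro ⟨j, hj, h⟩
        rw [hσ, Equiv.finsetCongr_apply, Finset.mem_map] at hj
        obtain ⟨i, hi, rfl⟩ := hj
        exact ⟨i, hi, (hRπ i x y).1 h⟩
      · rintro ⟨i, hi, h⟩
        refine ⟨π i, ?_, (hRπ i x y).2 h⟩
        rw [hσ, Equiv.finsetCongr_apply, Finset.mem_map]
        exact ⟨i, hi, rfl⟩
    constructor
    · intro h
      refine PV_emb hP.mono μ.symm ?_ h
      intro x y hxy
      rw [← h2]
      simpa using hxy
    · intro h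
      exact PV_emb hP.mono μ (fun x y hxy => (h2 x y).2 hxy) h
  have hv0 : ¬ v ∅ := by
    rw [hv]
    simpa using h0
  have hvI : ∀ I : Finset (Fin m), I.Nonempty → σ I = I → v I := by
    rintro I ⟨j, hj⟩ hI
    -- `I` is invariant under `Γ`
    have hmemμ : ∀ i, i ∈ I ↔ π i ∈ I := by
      intro i
      conv_rhs => rw [← hI]
      rw [hσ, Equiv.finsetCongr_apply, Finset.mem_map_equiv]
      simp
    obtain ⟨⟨e, he⟩, hj'⟩ := Quotient.exists_rep (φ.symm j)
    revert he
    refine Sym2.ind (fun x y => ?_) e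
    intro he hj'
    have hxy : x ≠ y := by rwa [Sym2.mk_isDiag_iff] at he
    let G : SimpleGraph V := ⊥ ⊔ ⨆ j ∈ I, R j
    have hG : ∀ x y, G.Adj x y ↔ ∃ j ∈ I, (R j).Adj x y := hadj I
    have hinv : ∀ g ∈ Γ, ∀ x y, G.Adj x y ↔ G.Adj (g x) (g y) := by
      intro g hg
      refine Subgroup.closure_induction (p := fun g _ => ∀ x y, G.Adj x y ↔ G.Adj (g x) (g y))
        ?_ ?_ ?_ ?_ hg
      · intro g hg x y
        rcases hg with rfl | hg
        · rw [hG, hG]
          constructor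
          · rintro ⟨i, hi, h⟩
            exact ⟨π i, (hmemμ i).1 hi, (hRπ i x y).2 h⟩
          · rintro ⟨i, hi, h⟩
            refine ⟨π.symm i, ?_, ?_⟩
            · rw [hmemμ]
              simpa using hi
            · rw [← hRπ]
              simpa using h
        · have hgK : g ∈ K := Subgroup.subset_closure hg
          rw [hG, hG]
          constructor
          · rintro ⟨i, hi, h⟩
            exact ⟨i, hi, clG_map K _ g hgK x y h⟩
          · rintro ⟨i, hi, h⟩
            refine ⟨i, hi, ?_⟩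
            have := clG_map K _ g⁻¹ (K.inv_mem hgK) _ _ h
            simpa using this
      · intro x y
        rfl
      · intro g g' _ _ h h' x y
        rw [h' x y, h]
        rfl
      · intro g _ h x y
        rw [h (g⁻¹ x) (g⁻¹ y)]
        simp
    refine Pool.Agent.H119R2.Kp.RelAux.PV_mono hP ?_ (h1 x y hxy)
    change orbG Γ x y hxy ≤ G
    have hxyG : G.Adj x y := (hG x y).2 ⟨j, hj, he, hj'⟩
    rintro u w ⟨g, hg, h | h⟩
    · have := (hinv g hg x y).1 hxyG
      rw [h.1, h.2] at this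
      exact this
    · have := (hinv g hg x y).1 hxyG
      rw [h.1, h.2] at this
      exact this.symm
  have hf1 := sum_fixed σ l N hσN (fun I => (-1 : ℤ) ^ I.card * (if v I then 1 else 0)) (by
    intro I
    have h2 : (σ I).card = I.card := by
      rw [hσ, Equiv.finsetCongr_apply, Finset.card_map]
    simp only [hvσ I, h2])
  have hf2 := sum_fixed σ l N hσN (fun I => (-1 : ℤ) ^ I.card) (by
    intro I
    have h2 : (σ I).card = I.card := by
      rw [hσ, Equiv.finsetCongr_apply, Finset.card_map]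
    simp only [h2])
  have hfix : ∑ I ∈ univ.filter (fun I => σ I = I), (-1 : ℤ) ^ I.card * (if v I then 1 else 0) =
      ∑ I ∈ univ.filter (fun I => σ I = I), (-1 : ℤ) ^ I.card - 1 := by
    have h2 : ∑ I ∈ univ.filter (fun I => σ I = I),
        (-1 : ℤ) ^ I.card * (if v I then 1 else 0) =
        ∑ I ∈ univ.filter (fun I => σ I = I), ((-1 : ℤ) ^ I.card - if I = ∅ then 1 else 0) := by
      refine Finset.sum_congr rfl fun I hI => ?_
      rcases I.eq_empty_or_nonempty with h | h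
      · subst h
        rw [if_neg hv0, if_pos rfl]
        simp
      · rw [if_pos (hvI I h (mem_filter.1 hI).2), if_neg h.ne_empty]
        ring
    rw [h2, Finset.sum_sub_distrib, Finset.sum_ite_eq' _ (∅ : Finset (Fin m))]
    rw [if_pos]
    simp [hσ]
  have hkey : ∑ I : Finset (Fin m), (-1 : ℤ) ^ I.card * (if v I then 1 else 0) = 0 := key
  rw [hkey, hfix] at hf1
  rw [hsum] at hf2
  have h3 : (l : ℤ) ∣ 1 := by
    have := dvd_sub hf1 hf2
    have h4 : (0 - (∑ I ∈ univ.filter (fun I => σ I = I), (-1 : ℤ) ^ I.card - 1)) -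
        (0 - ∑ I ∈ univ.filter (fun I => σ I = I), (-1 : ℤ) ^ I.card) = 1 := by ring
    rwa [h4] at this
  have h4 : l ∣ 1 := by exact_mod_cast h3
  exact (Fact.out : l.Prime).one_lt.ne' (Nat.dvd_one.1 h4)

end Pool.Agent.Y46.Kc
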